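import Pool.Agent.Q78.FE.Stm2

/-! Project FE of helper78, job HIG. -/

set_option autoImplicit false

namespace Pool.Agent.Q125.FE.Hig

open Finset H974 Pool.Agent.H160R2.CV Pool.Agent.H160R2.CV.Quad H362P Q78.FE

theorem reach_coe_inter {F S : Finset Edg} {u v : Vtx} (h : Reach (↑F ∩ ↑S) u v) :
    Reach (↑(F ∩ S) : Set Edg) u v := by
  rw [Finset.coe_inter]; exact h

theorem inter_inter_of_sub {F S T : Finset Edg} (h : T ⊆ S) : F ∩ S ∩ T = F ∩ T := by
  ext e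
  simp only [Finset.mem_inter]
  constructor
  · rintro ⟨⟨h1, -⟩, h2⟩; exact ⟨h1, h2⟩
  · rintro ⟨h1, h2⟩; exact ⟨⟨h1, h h2⟩, h2⟩

theorem Circ_loc {R1 R2 : ℕ} (h : R1 ≤ R2) {F S : Finset Edg} (hS : boxE R2 ⊆ S) :
    Circ R1 R2 F ↔ Circ R1 R2 (F ∩ S) := by
  have hz : (R1 : ℤ) ≤ R2 := by exact_mod_cast h
  unfold Circ
  have s1 : LRE (-(R2 : ℤ)) R2 R1 R2 ⊆ S :=
    LRE_subset_RE.trans ((RE_subset le_rfl le_rfl (by omega) le_rfl).trans hS)
  have s2 : LRE (-(R2 : ℤ)) R2 (-R2) (-R1) ⊆ S :=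
    LRE_subset_RE.trans ((RE_subset le_rfl le_rfl le_rfl (by omega)).trans hS)
  have s3 : TBE (R1 : ℤ) R2 (-R2) R2 ⊆ S :=
    TBE_subset_RE.trans ((RE_subset (by omega) le_rfl le_rfl le_rfl).trans hS)
  have s4 : TBE (-(R2 : ℤ)) (-R1) (-R2) R2 ⊆ S :=
    TBE_subset_RE.trans ((RE_subset le_rfl (by omega) le_rfl le_rfl).trans hS)
  rw [← LRc_local s1, ← LRc_local s2, ← TBc_local s3, ← TBc_local s4]

theorem CA_loc {c : Vtx} {R1 R2 : ℕ} (h : R1 ≤ R2) {F S : Finset Edg} (hS : bo c R2 ⊆ S) :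
    CA c R1 R2 F ↔ CA c R1 R2 (F ∩ S) := by
  unfold CA
  rw [LSym.mp_inter]
  apply Circ_loc h
  rw [← trl_bo c R2]
  exact LSym.mp_mono _ hS

theorem far_iff {v : Vtx} {m : ℕ} {F : Finset Edg} : Far v m F ↔ LA v m F :=
  ⟨LA_of_far le_rfl, far_of_LA⟩

theorem far_loc {v : Vtx} {m : ℕ} {F S : Finset Edg} (h : bo v m ⊆ S) :
    Far v m F ↔ Far v m (F ∩ S) := by
  rw [far_iff, far_iff]
  exact LA_loc h F

theorem far_mono {v : Vtx} {m : ℕ} {F G : Finset Edg} (h : F ⊆ G) (hF : Far v m F) :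
    Far v m G := by
  obtain ⟨u, h1, h2⟩ := hF
  exact ⟨u, h1, h2.mono (by exact_mod_cast h)⟩

theorem mem_bxz {z x : Vtx} {n : ℕ} : x ∈ bxz z n ↔ nv (x - z) ≤ n := by
  unfold bxz nv
  simp only [Finset.mem_product, Finset.mem_Icc, Prod.fst_sub, Prod.snd_sub]
  omega

theorem bo_mono {z : Vtx} {a b : ℕ} (h : a ≤ b) : bo z a ⊆ bo z b := by
  unfold bo
  apply RE_subset <;> omega

theorem bo_shift {z x : Vtx} {a b m : ℕ} (hx : nv (x - z) ≤ m) (h : m + a ≤ b) :
    bo x a ⊆ bo z b := by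
  unfold nv at hx
  simp only [Prod.fst_sub, Prod.snd_sub] at hx
  unfold bo
  apply RE_subset <;> omega

theorem Hc_loc {y : ℝ} {z : Vtx} {m : ℕ} {F S : Finset Edg} (hS : bo z (5 * m) ⊆ S) :
    Hc y z m F ↔ Hc y z m (F ∩ S) := by
  unfold Hc
  have h1 : CA z m (3 * m) F ↔ CA z m (3 * m) (F ∩ S) :=
    CA_loc (by omega) ((bo_mono (by omega)).trans hS)
  have h2 : ∑ x ∈ bxz z m, ind (Far x (4 * m) F) = ∑ x ∈ bxz z m, ind (Far x (4 * m) (F ∩ S)) := by
    apply Finset.sum_congr rfl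
    intro x hx
    rw [mem_bxz] at hx
    exact ind_congr (far_loc ((bo_shift hx (by omega)).trans hS))
  rw [← h1, ← h2]

theorem Hc_mono {y : ℝ} {z : Vtx} {m : ℕ} {F G : Finset Edg} (h : F ⊆ G) (hF : Hc y z m F) :
    Hc y z m G := by
  refine ⟨CA_incr G z m (3 * m) F G h (Finset.Subset.refl _) hF.1, hF.2.trans ?_⟩
  apply Finset.sum_le_sum
  intro x _
  exact ind_mono (far_mono h)

/-- nearby far vertices are counted by the gadget -/
theorem far_Hb {z : Vtx} {u m : ℕ} (hm : 1 ≤ m) (h3 : 3 * m ≤ 9 * u) {F : Finset Edg} (hCA : CA z m (3 * m) F)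
    {v : Vtx} (hv : nv (v - z) ≤ m) (hH : Hb z u F v) {x : Vtx} (hx : nv (x - z) ≤ m)
    (hF : Far x (4 * m) F) : Hb z u F x := by
  obtain ⟨w, hw, hr⟩ := hH
  obtain ⟨hw1, v', hv', hr'⟩ := hw
  have hr2 : Reach (↑F ∩ ↑(bo z (9 * u))) w v' := by
    refine hr'.mono (Set.inter_subset_inter_right _ ?_)
    have : An z u ⊆ bo z (9 * u) := Finset.sdiff_subset
    exact_mod_cast this
  set G : Finset Edg := F ∩ bo z (3 * m) with hG
  have hCG : CA z m (3 * m) G := (CA_loc (by omega) (Finset.Subset.refl _)).mp hCA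
  obtain ⟨zz, hzz⟩ := CA_meet (by omega) hCG
  -- v
  have k1 : Reach (↑F ∩ ↑(bo z (9 * u))) v v' := hr.symm.trans hr2
  have inv : ∀ q : Vtx, nv (q - z) ≤ m → ∀ q' : Vtx, 3 * m ≤ nv (q' - z) → Reach (↑F) q q' →
      Reach (↑G) q zz := by
    intro q hq q' hq' hrr
    obtain ⟨w1, e1, e2, e3⟩ := first_exit (a := z.1 - (3 * m : ℕ)) (b := z.1 + (3 * m : ℕ))
      (c := z.2 - (3 * m : ℕ)) (d := z.2 + (3 * m : ℕ)) (u := q) (v := q')
      (by
        unfold nv at hq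
        simp only [Prod.fst_sub, Prod.snd_sub] at hq
        unfold inR
        omega) hrr (by
        unfold nv at hq'
        simp only [Prod.fst_sub, Prod.snd_sub] at hq'
        omega)
    refine hzz q w1 hq ?_ ?_
    · unfold inR at e1
      unfold nv
      simp only [Prod.fst_sub, Prod.snd_sub]
      omega
    · rw [hG]
      exact reach_coe_inter e3
  have k2 : Reach (↑G) v zz := inv v hv v' (by omega) (k1.mono Set.inter_subset_left)
  have k3 : Reach (↑G) x zz := by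
    obtain ⟨q', hq', hrr⟩ := hF
    refine inv x hx q' ?_ hrr
    unfold nv at hq' hx ⊢
    simp only [Prod.fst_sub, Prod.snd_sub] at hq' hx ⊢
    omega
  have hGsub : (↑G : Set Edg) ⊆ ↑F ∩ ↑(bo z (9 * u)) := by
    rw [hG, Finset.coe_inter]
    refine Set.inter_subset_inter_right _ ?_
    exact_mod_cast bo_mono h3
  exact ⟨w, ⟨hw1, v', hv', hr'⟩, hr.trans ((k2.trans k3.symm).mono hGsub)⟩

theorem t_HIG (hLOC : S_LOC) : S_HIG := by
  classical
  intro p y z k0 u m hp0 hp1 hk hm hu F F'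
  have hok : Ok (fun _ : Edg => p) := okq hp0 hp1
  have hk0m : 3 * m ≤ u := by rw [hu]; exact Nat.mul_le_mul_right m hk
  have hu1 : 1 ≤ u := by omega
  have hBl : Bl z u = bo z (2 * u) := rfl
  have hHcBl : ∀ G : Finset Edg, Hc y z m G ↔ Hc y z m (G ∩ Bl z u) := by
    intro G
    exact Hc_loc (by rw [hBl]; exact bo_mono (by omega))
  have hHc9 : ∀ G : Finset Edg, Hc y z m G ↔ Hc y z m (G ∩ bo z (9 * u)) := by
    intro G
    exact Hc_loc (bo_mono (by omega))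
  have hHbloc : ∀ G G' : Finset Edg, G ∩ bo z (9 * u) = G' ∩ bo z (9 * u) →
      ∀ v, (Hb z u G v ↔ Hb z u G' v) := fun G G' h => (hLOC z u hu1 G G').2.2.1 h
  have hHiloc : ∀ G G' : Finset Edg, G ∩ bo z (9 * u) = G' ∩ bo z (9 * u) →
      (Hi y z u m G ↔ Hi y z u m G') := by
    intro G G' h
    unfold Hi
    rw [hHc9 G, hHc9 G', h]
    have := hHbloc G G' h
    simp only [this]
  have hHimono : ∀ G G' : Finset Edg, G ⊆ G' → Hi y z u m G → Hi y z u m G' := by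
    rintro G G' h ⟨⟨v, h1, h2⟩, h3⟩
    exact ⟨⟨v, h1, ((hLOC z u hu1 G G').2.2.2 h).2.2.2 v h2⟩, Hc_mono h h3⟩
  have hpz : ∀ G G' : Finset Edg, G ∩ bo z (9 * u) = G' ∩ bo z (9 * u) →
      pz p y z u m G = pz p y z u m G' := by
    intro G G' h
    unfold pz
    apply Pr_congr
    intro A _
    apply hHiloc
    ext e
    have h1 := Finset.ext_iff.mp h e
    simp only [Finset.mem_inter, Finset.mem_union, Finset.mem_sdiff] at h1 ⊢
    tauto
  have hpz2 : ∀ G G' : Finset Edg, G \ Bl z u = G' \ Bl z u →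
      pz p y z u m G = pz p y z u m G' := by
    intro G G' h
    unfold pz
    rw [h]
  have hpz0 : ∀ G : Finset Edg, 0 ≤ pz p y z u m G := fun G => Pr_nonneg hok _ _
  refine ⟨fun h => ⟨hHiloc F F' h, hpz F F' h, ?_⟩, hpz2 F F', hHcBl F, ?_, ?_, ?_, ?_, ?_,
    hHimono F F'⟩
  · unfold et
    rw [hpz F F' h, ind_congr (hHiloc F F' h)]
  · intro hpos
    have h1 : ∀ G, G ⊆ Bl z u → et p y z u m ((F \ Bl z u) ∪ G) =
        (pz p y z u m F)⁻¹ * ind (Hi y z u m ((F \ Bl z u) ∪ G)) := by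
      intro G hG
      unfold et
      rw [hpz2 ((F \ Bl z u) ∪ G) F (by
        ext e
        simp only [Finset.mem_sdiff, Finset.mem_union]
        constructor
        · rintro ⟨h1 | h1, h2⟩
          · exact h1
          · exact absurd (hG h1) h2
        · rintro ⟨h1, h2⟩
          exact ⟨Or.inl ⟨h1, h2⟩, h2⟩)]
      rw [div_eq_inv_mul]
    rw [Ex_congr h1, Ex_mul_left]
    exact inv_mul_cancel₀ hpos.ne'
  · exact div_nonneg (ind_nonneg _) (hpz0 F)
  · unfold et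
    by_cases h0 : pz p y z u m F = 0
    · rw [h0]; simp
    · rw [div_mul_cancel₀ _ h0]
      exact ind_le_one _
  · rintro ⟨⟨v, h1, h2⟩, h3⟩
    refine h3.2.trans ?_
    unfold Yz
    calc ∑ x ∈ bxz z m, ind (Far x (4 * m) F) ≤ ∑ x ∈ bxz z m, ind (Hb z u F x) := by
          apply Finset.sum_le_sum
          intro x hx
          rw [mem_bxz] at hx
          exact ind_mono (far_Hb hm (by omega) h3.1 h1 h2 hx)
      _ ≤ _ := by
          apply Finset.sum_le_sum_of_subset_of_nonneg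
          · intro x hx
            rw [mem_bxz] at hx ⊢
            omega
          · intro x _ _
            exact ind_nonneg _
  · intro c hc
    have i1 : IncrE (Bl z u) (fun G => ∃ v : Vtx, nv (v - z) ≤ m ∧ Hb z u ((F \ Bl z u) ∪ G) v) := by
      rintro G G' h _ ⟨v, h1, h2⟩
      exact ⟨v, h1, ((hLOC z u hu1 ((F \ Bl z u) ∪ G) ((F \ Bl z u) ∪ G')).2.2.2
        (Finset.union_subset_union_right h)).2.2.2 v h2⟩
    have i2 : IncrE (Bl z u) (Hc y z m) := fun G G' h _ hG => Hc_mono h hG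
    have i3 := Pr_harris hok i1 i2
    have i4 : Pr (fun _ => p) (Bl z u) (fun G => (∃ v : Vtx, nv (v - z) ≤ m ∧
        Hb z u ((F \ Bl z u) ∪ G) v) ∧ Hc y z m G) = pz p y z u m F := by
      unfold pz
      apply Pr_congr
      intro G hG
      unfold Hi
      have : Hc y z m G ↔ Hc y z m ((F \ Bl z u) ∪ G) := by
        rw [hHcBl G, hHcBl ((F \ Bl z u) ∪ G)]
        have e : ((F \ Bl z u) ∪ G) ∩ Bl z u = G ∩ Bl z u := by
          ext e
          simp only [Finset.mem_inter, Finset.mem_sdiff, Finset.mem_union]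
          tauto
        rw [e]
      rw [this]
    rw [i4] at i3
    have h0 : 0 ≤ hz p z u m F := Pr_nonneg hok _ _
    have h1 : hz p z u m F * c ≤ hz p z u m F * Pr (fun _ => p) (Bl z u) (Hc y z m) :=
      mul_le_mul_of_nonneg_left hc h0
    rw [mul_comm]
    exact h1.trans i3

end Pool.Agent.Q125.FE.Hig
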