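import Pool.Agent.Q291.CS.Lower
import Pool.Agent.Q125.FE.Hig

/-! Project FE of helper78, job CNT. -/

set_option autoImplicit false

namespace Pool.Agent.Q125.FE.Cnt

open Finset H974 Pool.Agent.H160R2.CV Pool.Agent.H160R2.CV.Quad H362P Pool.Agent.Y244.PC
open Q78.FE Pool.Agent.Q125.FE.Hig

theorem trl_zero (F : Finset Edg) : (trl (-(0 : Vtx).1) (-(0 : Vtx).2)).mp F = F := by
  ext ⟨x, y, b⟩
  simp [LSym.mem_mp, trl]

/-- deterministic part -/
theorem det {m' r : ℕ} (hm : 1 ≤ m') (hr : 1 ≤ r) {F : Finset Edg} {y : ℝ} (hy : 0 < y)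
    (hG : Grid ((32 * r + 3) * m') m' (16 * r + 1) F)
    (hC : ∀ q ∈ range (16 * r + 1) ×ˢ range (16 * r + 1),
      Q291.CS.CtP (cen ((32 * r + 3) * m') m' q.1 q.2) y m' F)
    (hCi : Circ ((4 * r * m' : ℕ) : ℤ) ((3 * (4 * r * m') : ℕ) : ℤ) F) :
    Hc ((r : ℝ) ^ 2 * y) 0 (4 * r * m') F := by
  classical
  obtain ⟨n, hn⟩ : ∃ n : ℕ, n = (32 * r + 3) * m' := ⟨_, rfl⟩
  have hK : 4 * m' * (16 * r + 1) + 2 * m' ≤ 2 * n := by
    rw [hn]
    nlinarith
  have hrm : m' ≤ r * m' := Nat.le_mul_of_pos_left _ hr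
  rw [← hn] at hG hC
  obtain ⟨z, hz, hreach⟩ := grid_meet hm hK hG
  refine ⟨?_, ?_⟩
  · show Circ _ _ ((trl (-(0 : Vtx).1) (-(0 : Vtx).2)).mp F)
    rw [trl_zero]
    exact hCi
  have h1 : ∀ q : ℕ × ℕ, ∃ T : Finset Vtx, q ∈ range (16 * r + 1) ×ˢ range (16 * r + 1) →
      y ≤ (T.card : ℝ) ∧ ∀ u ∈ T, nv (u - cen n m' q.1 q.2) ≤ m' ∧ Far u (4 * m') F := by
    intro q
    by_cases hq : q ∈ range (16 * r + 1) ×ˢ range (16 * r + 1)
    · obtain ⟨T, h2, h3⟩ := Q291.CS.CtP_set (hC q hq)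
      exact ⟨T, fun _ => ⟨h2, h3⟩⟩
    · exact ⟨∅, fun h => absurd h hq⟩
  choose T hT using h1
  have hmem : ∀ s t : ℕ, s < 16 * r + 1 → t < 16 * r + 1 →
      ((s, t) : ℕ × ℕ) ∈ range (16 * r + 1) ×ˢ range (16 * r + 1) := by
    intro s t h1 h2
    rw [Finset.mem_product, Finset.mem_range, Finset.mem_range]
    exact ⟨h1, h2⟩
  have hcen : ∀ s t : ℕ, cen n m' (8 * r + s) (8 * r + t) = (4 * (m' : ℤ) * s, 4 * (m' : ℤ) * t) := by
    intro s t
    unfold Pool.Agent.Y244.PC.cen st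
    rw [hn]
    push_cast
    ext <;> simp only <;> ring
  -- a far vertex
  obtain ⟨u', hu'⟩ : ∃ u', u' ∈ T (8 * r + 8 * r, 8 * r + 8 * r) := by
    have h2 := (hT (8 * r + 8 * r, 8 * r + 8 * r) (hmem _ _ (by omega) (by omega))).1
    by_contra hc
    push Not at hc
    have : T (8 * r + 8 * r, 8 * r + 8 * r) = ∅ := Finset.eq_empty_of_forall_notMem hc
    rw [this] at h2
    simp at h2
    linarith
  obtain ⟨hu1, hu2⟩ := (hT (8 * r + 8 * r, 8 * r + 8 * r) (hmem _ _ (by omega) (by omega))).2 u' hu'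
  have hur := hreach (8 * r + 8 * r) (8 * r + 8 * r) (by omega) (by omega) u' hu1 hu2
  rw [hcen] at hu1
  obtain ⟨A, hA⟩ : ∃ A : ℤ, A = (r : ℤ) * m' := ⟨_, rfl⟩
  have hA1 : (m' : ℤ) ≤ A := by rw [hA]; exact_mod_cast hrm
  have hA2 : (1 : ℤ) ≤ m' := by exact_mod_cast hm
  have e8 : 4 * (m' : ℤ) * ((8 * r : ℕ) : ℤ) = 32 * A := by rw [hA]; push_cast; ring
  have e4 : ((4 * r * m' : ℕ) : ℤ) = 4 * A := by rw [hA]; push_cast; ring
  have e16 : ((4 * (4 * r * m') : ℕ) : ℤ) = 16 * A := by rw [hA]; push_cast; ring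
  rw [e8] at hu1
  have hfar : ∀ s t : ℕ, s < r → t < r → ∀ u ∈ T (8 * r + s, 8 * r + t),
      nv (u - 0) ≤ 4 * r * m' ∧ Far u (4 * (4 * r * m')) F := by
    intro s t hs ht u hu
    obtain ⟨k1, k2⟩ := (hT (8 * r + s, 8 * r + t) (hmem _ _ (by omega) (by omega))).2 u hu
    have k3 := hreach (8 * r + s) (8 * r + t) (by omega) (by omega) u k1 k2
    simp only at k1
    rw [hcen] at k1
    have b1 : (0 : ℤ) ≤ m' * s := by positivity
    have b2 : (0 : ℤ) ≤ m' * t := by positivity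
    have b3 : (m' : ℤ) * s + m' ≤ A := by
      rw [hA]
      have : (s : ℤ) + 1 ≤ r := by exact_mod_cast hs
      nlinarith
    have b4 : (m' : ℤ) * t + m' ≤ A := by
      rw [hA]
      have : (t : ℤ) + 1 ≤ r := by exact_mod_cast ht
      nlinarith
    have c1 : 4 * (m' : ℤ) * s = 4 * (m' * s) := by ring
    have c2 : 4 * (m' : ℤ) * t = 4 * (m' * t) := by ring
    rw [c1, c2] at k1
    unfold nv at k1 hu1
    simp only [Prod.fst_sub, Prod.snd_sub] at k1 hu1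
    have hnv : nv (u - 0) ≤ 4 * r * m' := by
      rw [sub_zero]
      unfold nv
      omega
    refine ⟨hnv, u', ?_, ?_⟩
    · unfold nv
      simp only [Prod.fst_sub, Prod.snd_sub]
      omega
    · exact (k3.trans hur.symm).mono Set.inter_subset_left
  -- the count
  set J : Finset (ℕ × ℕ) := range r ×ˢ range r with hJ
  set D : Finset Vtx := J.biUnion (fun q => T (8 * r + q.1, 8 * r + q.2)) with hD
  have hDcard : (r : ℝ) ^ 2 * y ≤ (D.card : ℝ) := by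
    rw [hD, Finset.card_biUnion]
    · push_cast
      calc (r : ℝ) ^ 2 * y = ∑ q ∈ J, y := by
            rw [Finset.sum_const, hJ, Finset.card_product, Finset.card_range, nsmul_eq_mul]
            push_cast
            ring
        _ ≤ _ := Finset.sum_le_sum fun q hq => by
            rw [hJ, Finset.mem_product, Finset.mem_range, Finset.mem_range] at hq
            exact (hT (8 * r + q.1, 8 * r + q.2) (hmem _ _ (by omega) (by omega))).1
    · intro q hq q' hq' hne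
      rw [hJ, Finset.mem_coe, Finset.mem_product, Finset.mem_range, Finset.mem_range] at hq hq'
      show Disjoint (T _) (T _)
      rw [Finset.disjoint_left]
      intro u hu hu'
      have := cen_disj hm ((hT _ (hmem (8 * r + q.1) (8 * r + q.2) (by omega) (by omega))).2 u hu).1
        ((hT _ (hmem (8 * r + q'.1) (8 * r + q'.2) (by omega) (by omega))).2 u hu').1
      exact hne (Prod.ext (by omega) (by omega))
  refine hDcard.trans ?_
  have hDs : D ⊆ bxz 0 (4 * r * m') := by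
    intro u hu
    rw [hD, Finset.mem_biUnion] at hu
    obtain ⟨q, hq, hu⟩ := hu
    rw [hJ, Finset.mem_product, Finset.mem_range, Finset.mem_range] at hq
    rw [Hig.mem_bxz]
    exact (hfar q.1 q.2 hq.1 hq.2 u hu).1
  calc (D.card : ℝ) = ∑ x ∈ D, (1 : ℝ) := by simp
    _ = ∑ x ∈ D, ind (Far x (4 * (4 * r * m')) F) := by
        apply Finset.sum_congr rfl
        intro u hu
        rw [hD, Finset.mem_biUnion] at hu
        obtain ⟨q, hq, hu⟩ := hu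
        rw [hJ, Finset.mem_product, Finset.mem_range, Finset.mem_range] at hq
        rw [ind_of (hfar q.1 q.2 hq.1 hq.2 u hu).2]
    _ ≤ _ := Finset.sum_le_sum_of_subset_of_nonneg hDs (fun _ _ _ => ind_nonneg _)

/-- probability of the intersection -/
theorem prob {p κ c y : ℝ} {m' r : ℕ} (hm : 1 ≤ m') (hr : 1 ≤ r)
    (hW : H12S.Win p κ (100 * (4 * r * m'))) (hc : 0 < c)
    (hct : ∀ S : Finset Edg, boxE (5 * m') ⊆ S → c ≤ Pr (fun _ => p) S (fun F => y ≤ Yc m' F)) :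
    ∃ M : ℕ, 5 * (4 * r * m') ≤ M ∧ κ ^ 4 * ((κ ^ (16 * r + 1)) ^ (16 * r + 2) *
      (κ ^ (16 * r + 1)) ^ (16 * r + 2) * c ^ ((16 * r + 1) * (16 * r + 1))) ≤
      Pr (fun _ => p) (boxE M) (fun F => Circ ((4 * r * m' : ℕ) : ℤ) ((3 * (4 * r * m') : ℕ) : ℤ) F ∧
        Grid ((32 * r + 3) * m') m' (16 * r + 1) F ∧
        ∀ q ∈ range (16 * r + 1) ×ˢ range (16 * r + 1),
          Q291.CS.CtP (cen ((32 * r + 3) * m') m' q.1 q.2) y m' F) := by
  classical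
  have h0 : 0 ≤ p := by linarith [hW.lo]
  have h1 : p ≤ 1 := by linarith [hW.hi]
  have ok := okq h0 h1
  have hk := hW.kpos
  have hk1 : κ ≤ 1 := by linarith [hW.kle]
  obtain ⟨K, hKd⟩ : ∃ K : ℕ, K = 16 * r + 1 := ⟨_, rfl⟩
  obtain ⟨n, hn⟩ : ∃ n : ℕ, n = (32 * r + 3) * m' := ⟨_, rfl⟩
  have hrm : m' ≤ r * m' := Nat.le_mul_of_pos_left _ hr
  have hnr : n = 32 * (r * m') + 3 * m' := by rw [hn]; ring
  have h4r : 4 * r * m' = 4 * (r * m') := by ring
  have hK : 4 * m' * K + 2 * m' ≤ 2 * n := by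
    rw [hKd, hn]
    nlinarith
  obtain ⟨S, hS⟩ : ∃ S : Finset Edg, S = boxE (n + 2 * m') := ⟨_, rfl⟩
  have hSn : boxE n ⊆ S := by rw [hS]; exact boxE_mono (by omega)
  refine ⟨n + 2 * m', by omega, ?_⟩
  rw [← hS, ← hKd, ← hn]
  have hK1 : 16 * r + 2 = K + 1 := by omega
  rw [hK1]
  obtain ⟨q0, hq0⟩ : ∃ q0 : ℝ, q0 = κ ^ K := ⟨_, rfl⟩
  have hq00 : 0 < q0 := by rw [hq0]; exact pow_pos hk _
  rw [← hq0]
  have hstrip : q0 ≤ hh p (2 * (n : ℤ)) (2 * m') := by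
    have hw := Pool.Agent.W424.NC.hh_long (hW.anti (show 2 * m' ≤ 100 * (4 * r * m') by omega))
      (by omega) (8 * r)
    have e : 2 * (8 * r) + 1 = K := by omega
    rw [e] at hw
    rw [hq0]
    refine hw.trans ?_
    have hn' : (n : ℤ) = 32 * ((r : ℤ) * m') + 3 * m' := by rw [hn]; push_cast; ring
    have hm' : (1 : ℤ) ≤ m' := by exact_mod_cast hm
    have him : (0 : ℤ) ≤ (r : ℤ) * m' := by positivity
    apply hh_mono h0 h1
    · omega
    · push_cast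
      rw [hn']
      nlinarith
    · push_cast
      omega
  have hcirc : κ ^ 4 ≤ Pr (fun _ => p) S (Circ ((4 * r * m' : ℕ) : ℤ) ((3 * (4 * r * m') : ℕ) : ℤ)) := by
    obtain ⟨m, hmd⟩ : ∃ m : ℕ, m = 4 * r * m' := ⟨_, rfl⟩
    rw [← hmd] at hW ⊢
    have hm1 : 1 ≤ m := by omega
    have hm3 : boxE (3 * m) ⊆ S := by
      rw [hS]; apply boxE_mono; omega
    refine le_trans ?_ (pr_Circ (q := p) h0 h1 (R1 := (m : ℤ)) (R2 := ((3 * m : ℕ) : ℤ))
      (by positivity) (by push_cast; omega) hm3)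
    have g1 := hW.pri (2 * m) (by omega) (by omega)
    have g2 : hh p (16 * ((2 * m : ℕ) : ℤ)) ((2 * m : ℕ) : ℤ) ≤
        hh p (2 * ((3 * m : ℕ) : ℤ)) (((3 * m : ℕ) : ℤ) - m) := by
      apply hh_mono h0 h1 <;> push_cast <;> omega
    exact pow_le_pow_left₀ hk.le (g1.trans g2) 4
  have f1 := fkg_incr ok (S := S) (range (K + 1))
    (fun i => LRc (-(n : ℤ)) n (st n m' i) (st n m' i + 2 * m')) (fun i _ => LRc_incr _ _ _ _ _)
  have f2 := fkg_incr ok (S := S) (range (K + 1))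
    (fun i => TBc (st n m' i) (st n m' i + 2 * m') (-(n : ℤ)) n) (fun i _ => TBc_incr _ _ _ _ _)
  have f3 := fkg_incr ok (S := S) (range K ×ˢ range K)
    (fun q => Q291.CS.CtP (cen n m' q.1 q.2) y m') (fun q _ => Q291.CS.CtP_incr _ _ _ _)
  have g1 := (Pool.Agent.Y244.PC.pow_card_le_prod (range (K + 1)) _ hq00.le (fun i hi => by
      have hi' : i ≤ K := by rw [Finset.mem_range] at hi; omega
      have a1 := st_ge n m' i
      have a3 := st_le hK hi'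
      have k1 : LRE (-(n : ℤ)) n (st n m' i) (st n m' i + 2 * m') ⊆ S := by
        refine LRE_subset_RE.trans (Finset.Subset.trans ?_ hSn)
        unfold boxE
        exact RE_subset le_rfl le_rfl a1 a3
      rw [pr_LRc p k1]
      refine hstrip.trans (le_of_eq ?_)
      congr 1 <;> ring)).trans f1
  have g2 := (Pool.Agent.Y244.PC.pow_card_le_prod (range (K + 1)) _ hq00.le (fun i hi => by
      have hi' : i ≤ K := by rw [Finset.mem_range] at hi; omega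
      have a1 := st_ge n m' i
      have a3 := st_le hK hi'
      have k1 : TBE (st n m' i) (st n m' i + 2 * m') (-(n : ℤ)) n ⊆ S := by
        refine TBE_subset_RE.trans (Finset.Subset.trans ?_ hSn)
        unfold boxE
        exact RE_subset a1 a3 le_rfl le_rfl
      rw [pr_TBc p k1]
      refine hstrip.trans (le_of_eq ?_)
      congr 1 <;> ring)).trans f2
  have g3 := (Pool.Agent.Y244.PC.pow_card_le_prod (range K ×ˢ range K) _ hc.le (fun q hq => by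
      rw [Finset.mem_product, Finset.mem_range, Finset.mem_range] at hq
      have k1 : Pr (fun _ => p) S (Q291.CS.CtP (cen n m' q.1 q.2) y m') =
          Pr (fun _ => p) (sh (cen n m' q.1 q.2) S) (fun F => y ≤ Yc m' F) :=
        Q291.CS.Ex_sh p (cen n m' q.1 q.2) S (fun F => ind (y ≤ Yc m' F))
      rw [k1]
      apply hct
      rw [← sh_bo (cen n m' q.1 q.2) (5 * m')]
      apply sh_mono
      rw [hS]
      exact cen_bo hK hq.1 hq.2)).trans f3
  rw [Finset.card_range] at g1 g2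
  rw [Finset.card_product, Finset.card_range] at g3
  have i1 : IncrE S (fun F => ∀ i ∈ range (K + 1),
      LRc (-(n : ℤ)) n (st n m' i) (st n m' i + 2 * m') F) :=
    fun F G hFG hG h i hi => (h i hi).mono hFG
  have i2 : IncrE S (fun F => ∀ i ∈ range (K + 1),
      TBc (st n m' i) (st n m' i + 2 * m') (-(n : ℤ)) n F) :=
    fun F G hFG hG h i hi => (h i hi).mono hFG
  have i3 : IncrE S (fun F => ∀ q ∈ range K ×ˢ range K, Q291.CS.CtP (cen n m' q.1 q.2) y m' F) :=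
    fun F G hFG hG h q hq => Q291.CS.CtP_incr S _ _ _ F G hFG hG (h q hq)
  have i4 : IncrE S (Circ ((4 * r * m' : ℕ) : ℤ) ((3 * (4 * r * m') : ℕ) : ℤ)) :=
    fun F G hFG _ h => Circ.mono hFG h
  have j1 := Pr_harris ok i1 i2
  have i12 : IncrE S (Grid n m' K) :=
    fun F G hFG hG h => ⟨i1 F G hFG hG h.1, i2 F G hFG hG h.2⟩
  have j2 := Pr_harris ok i12 i3
  have i123 : IncrE S (fun F => Grid n m' K F ∧
      ∀ q ∈ range K ×ˢ range K, Q291.CS.CtP (cen n m' q.1 q.2) y m' F) :=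
    fun F G hFG hG h => ⟨i12 F G hFG hG h.1, i3 F G hFG hG h.2⟩
  have j3 := Pr_harris ok i4 i123
  have p1 : 0 ≤ q0 ^ (K + 1) := pow_nonneg hq00.le _
  have p3 : 0 ≤ c ^ (K * K) := pow_nonneg hc.le _
  have k1 : q0 ^ (K + 1) * q0 ^ (K + 1) ≤ Pr (fun _ => p) S (Grid n m' K) :=
    (mul_le_mul g1 g2 p1 (p1.trans g1)).trans j1
  have k2 := (mul_le_mul k1 g3 p3 ((mul_nonneg p1 p1).trans k1)).trans j2
  have p4 : 0 ≤ q0 ^ (K + 1) * q0 ^ (K + 1) * c ^ (K * K) := by positivity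
  exact (mul_le_mul hcirc k2 p4 ((by positivity : 0 ≤ κ ^ 4).trans hcirc)).trans j3

theorem Hc_shift {Y : ℝ} {z : Vtx} {m : ℕ} {F : Finset Edg} : Hc Y z m F ↔ Hc Y 0 m (sh z F) := by
  classical
  unfold Hc
  have h1 : CA z m (3 * m) F ↔ CA 0 m (3 * m) (sh z F) := by
    unfold CA
    rw [trl_zero]
    rfl
  have h2 : ∑ x ∈ bxz z m, ind (Far x (4 * m) F) = ∑ x ∈ bxz 0 m, ind (Far x (4 * m) (sh z F)) := by
    symm
    apply Finset.sum_bij (fun x _ => x + z)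
    · intro x hx
      rw [Hig.mem_bxz] at hx ⊢
      rw [add_sub_cancel_right]
      rwa [sub_zero] at hx
    · intro x _ y _ h
      exact add_right_cancel h
    · intro x hx
      rw [Hig.mem_bxz] at hx
      refine ⟨x - z, ?_, sub_add_cancel x z⟩
      rw [Hig.mem_bxz, sub_zero]
      exact hx
    · intro x _
      exact ind_congr Q291.CS.Far_sh
  rw [h1, h2]

theorem t_CNT : S_CNT := by
  classical
  intro κ a H hκ ha hH
  obtain ⟨c, hc, hc1, hct⟩ := Q291.CS.count_p ha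
  -- choice of ρ
  obtain ⟨ρ0, hρ0⟩ : ∃ ρ : ℕ, 32 * H / a ≤ ((2 : ℝ) ^ (5 / 48 : ℝ)) ^ ρ := by
    have h2 : (1 : ℝ) < (2 : ℝ) ^ (5 / 48 : ℝ) := Real.one_lt_rpow (by norm_num) (by norm_num)
    obtain ⟨ρ, h⟩ := pow_unbounded_of_one_lt (32 * H / a) h2
    exact ⟨ρ, h.le⟩
  set ρ := ρ0 + 2 with hρ
  set r : ℕ := 2 ^ ρ0 with hr
  have hr1 : 1 ≤ r := Nat.one_le_two_pow
  have hR : (2 : ℕ) ^ ρ = 4 * r := by rw [hρ, hr, pow_add]; ring
  have hk' : min κ 1 ≤ 1 := min_le_right _ _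
  by_cases hκ1 : κ ≤ 1
  swap
  · -- no window
    refine ⟨ρ, 1, one_pos, le_rfl, ?_⟩
    intro p m' m _ _ hNW
    exact absurd (by linarith [hNW.win.kle]) hκ1
  refine ⟨ρ, κ ^ 4 * ((κ ^ (16 * r + 1)) ^ (16 * r + 2) *
      (κ ^ (16 * r + 1)) ^ (16 * r + 2) * c ^ ((16 * r + 1) * (16 * r + 1))), by positivity, ?_, ?_⟩
  · have b1 : κ ^ 4 ≤ 1 := pow_le_one₀ hκ.le hκ1
    have b2 : (κ ^ (16 * r + 1)) ^ (16 * r + 2) ≤ 1 :=
      pow_le_one₀ (by positivity) (pow_le_one₀ hκ.le hκ1)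
    have b3 : c ^ ((16 * r + 1) * (16 * r + 1)) ≤ 1 := pow_le_one₀ hc.le hc1
    have b4 := mul_le_one₀ b2 (by positivity) b2
    exact mul_le_one₀ b1 (by positivity) (mul_le_one₀ b4 (by positivity) b3)
  intro p m' m hm' hm hNW z S hS
  have hmr : m = 4 * r * m' := by rw [hm, hR]
  have hp0 : 0 ≤ p := by linarith [hNW.lo]
  have hp2 : p ≤ 1 / 2 := hNW.hi
  have hok : Ok (fun _ : Edg => p) := okq hp0 (by linarith)
  have hrm : m' ≤ r * m' := Nat.le_mul_of_pos_left _ hr1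
  have h4r : 4 * r * m' = 4 * (r * m') := by ring
  have harm := hNW.arm (4 * m') (by omega) (by omega)
  have hct' : ∀ S : Finset Edg, boxE (5 * m') ⊆ S →
      c ≤ Pr (fun _ => p) S (fun F => a / 2 * (m' : ℝ) ^ (91 / 48 : ℝ) ≤ Yc m' F) :=
    hct p m' hp0 hp2 hm' harm
  obtain ⟨M, hM, hpr⟩ := prob hm' hr1 (by rw [← hmr]; exact hNW.win) hc hct'
  have hm'0 : (0 : ℝ) < m' := by exact_mod_cast hm'
  have hy : 0 < a / 2 * (m' : ℝ) ^ (91 / 48 : ℝ) := by positivity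
  -- comparison of the counts
  have hY : H * (m : ℝ) ^ (91 / 48 : ℝ) ≤ (r : ℝ) ^ 2 * (a / 2 * (m' : ℝ) ^ (91 / 48 : ℝ)) := by
    have hr0 : (0 : ℝ) < r := by exact_mod_cast hr1
    have e1 : (m : ℝ) ^ (91 / 48 : ℝ) = (4 : ℝ) ^ (91 / 48 : ℝ) * (r : ℝ) ^ (91 / 48 : ℝ) *
        (m' : ℝ) ^ (91 / 48 : ℝ) := by
      rw [hmr]
      push_cast
      rw [Real.mul_rpow (by positivity) hm'0.le, Real.mul_rpow (by norm_num) hr0.le]
    have e2 : (4 : ℝ) ^ (91 / 48 : ℝ) ≤ 16 := by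
      calc (4 : ℝ) ^ (91 / 48 : ℝ) ≤ (4 : ℝ) ^ (2 : ℝ) :=
            Real.rpow_le_rpow_of_exponent_le (by norm_num) (by norm_num)
        _ = 16 := by norm_num
    have e3 : (r : ℝ) ^ 2 = (r : ℝ) ^ (5 / 48 : ℝ) * (r : ℝ) ^ (91 / 48 : ℝ) := by
      rw [← Real.rpow_add hr0, ← Real.rpow_natCast]
      norm_num
    have e4 : 32 * H / a ≤ (r : ℝ) ^ (5 / 48 : ℝ) := by
      refine hρ0.trans (le_of_eq ?_)
      rw [hr]
      push_cast
      rw [← Real.rpow_natCast, ← Real.rpow_natCast, ← Real.rpow_mul (by norm_num),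
        ← Real.rpow_mul (by norm_num)]
      congr 1
      ring
    have e5 : 32 * H ≤ (r : ℝ) ^ (5 / 48 : ℝ) * a := by
      rw [div_le_iff₀ ha] at e4
      exact e4
    rw [e1, e3]
    have f0 : 0 ≤ (r : ℝ) ^ (91 / 48 : ℝ) * (m' : ℝ) ^ (91 / 48 : ℝ) := by positivity
    calc H * ((4 : ℝ) ^ (91 / 48 : ℝ) * (r : ℝ) ^ (91 / 48 : ℝ) * (m' : ℝ) ^ (91 / 48 : ℝ))
        = (H * (4 : ℝ) ^ (91 / 48 : ℝ)) * ((r : ℝ) ^ (91 / 48 : ℝ) * (m' : ℝ) ^ (91 / 48 : ℝ)) := by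
          ring
      _ ≤ (H * 16) * ((r : ℝ) ^ (91 / 48 : ℝ) * (m' : ℝ) ^ (91 / 48 : ℝ)) := by
          apply mul_le_mul_of_nonneg_right _ f0
          exact mul_le_mul_of_nonneg_left e2 hH.le
      _ ≤ ((r : ℝ) ^ (5 / 48 : ℝ) * a / 2) * ((r : ℝ) ^ (91 / 48 : ℝ) * (m' : ℝ) ^ (91 / 48 : ℝ)) := by
          apply mul_le_mul_of_nonneg_right _ f0
          linarith
      _ = _ := by ring
  -- from S to a big box
  have s1 : Pr (fun _ => p) S (Hc (H * (m : ℝ) ^ (91 / 48 : ℝ)) z m) =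
      Pr (fun _ => p) (bo z (5 * m)) (Hc (H * (m : ℝ) ^ (91 / 48 : ℝ)) z m) :=
    Pr_local hS (fun F _ => Hc_loc (Finset.Subset.refl _))
  have s2 : Pr (fun _ => p) (bo z (5 * m)) (Hc (H * (m : ℝ) ^ (91 / 48 : ℝ)) z m) =
      Pr (fun _ => p) (boxE (5 * m)) (Hc (H * (m : ℝ) ^ (91 / 48 : ℝ)) 0 m) := by
    have h1 : Pr (fun _ => p) (bo z (5 * m)) (Hc (H * (m : ℝ) ^ (91 / 48 : ℝ)) z m) =
        Pr (fun _ => p) (bo z (5 * m)) (fun F => Hc (H * (m : ℝ) ^ (91 / 48 : ℝ)) 0 m (sh z F)) :=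
      Pr_congr (fun F _ => Hc_shift)
    rw [h1]
    have h2 := Q291.CS.Ex_sh p z (bo z (5 * m))
      (fun F => ind (Hc (H * (m : ℝ) ^ (91 / 48 : ℝ)) 0 m F))
    rw [sh_bo] at h2
    exact h2
  have hb0 : bo 0 (5 * m) = boxE (5 * m) := by
    unfold bo boxE
    simp
  have s3 : Pr (fun _ => p) (boxE M) (Hc (H * (m : ℝ) ^ (91 / 48 : ℝ)) 0 m) =
      Pr (fun _ => p) (boxE (5 * m)) (Hc (H * (m : ℝ) ^ (91 / 48 : ℝ)) 0 m) :=
    Pr_local (boxE_mono (by rw [hmr]; exact hM)) (fun F _ => Hc_loc (by rw [hb0]))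
  rw [s1, s2, ← s3]
  refine hpr.trans (Pr_mono hok ?_)
  rintro F _ ⟨hF1, hF2, hF3⟩
  have hdet := det hm' hr1 hy hF2 hF3 hF1
  rw [← hmr] at hdet
  exact ⟨hdet.1, hY.trans hdet.2⟩

end Pool.Agent.Q125.FE.Cnt
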