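import Pool.Agent.Q78.FE.Stm2

/-! Project FE of helper78, job CONK. -/

set_option autoImplicit false

namespace Pool.Agent.Q125.FE

open Finset H974 Pool.Agent.H160R2.CV Pool.Agent.H160R2.CV.Quad H362P Q78.FE

theorem reach_coe_inter {F S : Finset Edg} {u v : Vtx} (h : Reach (↑F ∩ ↑S) u v) :
    Reach (↑(F ∩ S) : Set Edg) u v := by
  rw [Finset.coe_inter]; exact h

theorem reach_inter_coe {F S : Finset Edg} {u v : Vtx} (h : Reach (↑(F ∩ S) : Set Edg) u v) :
    Reach (↑F ∩ ↑S) u v := by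
  rw [Finset.coe_inter] at h; exact h

theorem inter_inter_of_sub {F S T : Finset Edg} (h : T ⊆ S) : F ∩ S ∩ T = F ∩ T := by
  ext e
  simp only [Finset.mem_inter]
  constructor
  · rintro ⟨⟨h1, -⟩, h2⟩; exact ⟨h1, h2⟩
  · rintro ⟨h1, h2⟩; exact ⟨⟨h1, h h2⟩, h2⟩

/-- the hub property -/
def HubAt (z : Vtx) (u : ℕ) (F : Finset Edg) (h : Vtx) : Prop :=
  (∀ w v : Vtx, nv (w - z) ≤ 30 * u → 90 * u ≤ nv (v - z) → Reach (↑F) w v → Reach (↑F) w h) ∧
  ∃ w, Rad z u F w ∧ Reach (↑F) w h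

theorem hub_horiz {z z' : Vtx} {u : ℕ} {F : Finset Edg} {h h' : Vtx} (hz : z'.1 = z.1 + 200 * u)
    (hz2 : z'.2 = z.2) (H : HubAt z u F h) (H' : HubAt z' u F h') (hL : Lh z u F) :
    Reach (↑F) h h' := by
  obtain ⟨y, y', h1, h2, h3⟩ := hL
  have h4 := h3.mono (Set.inter_subset_left)
  have e1 := H.1 (z.1 + 3 * u, y) (z.1 + 197 * u, y')
    (by simp only [nv, Prod.fst_sub, Prod.snd_sub]; omega)
    (by simp only [nv, Prod.fst_sub, Prod.snd_sub]; omega) h4
  have e2 := H'.1 (z.1 + 197 * u, y') (z.1 + 3 * u, y)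
    (by simp only [nv, Prod.fst_sub, Prod.snd_sub]; omega)
    (by simp only [nv, Prod.fst_sub, Prod.snd_sub]; omega) h4.symm
  exact e1.symm.trans (h4.trans e2)

theorem hub_vert {z z' : Vtx} {u : ℕ} {F : Finset Edg} {h h' : Vtx} (hz : z'.1 = z.1)
    (hz2 : z'.2 = z.2 + 200 * u) (H : HubAt z u F h) (H' : HubAt z' u F h') (hL : Lv z u F) :
    Reach (↑F) h h' ∧ ∃ x x', Reach (↑F) (x, z.2 + 3 * u) h ∧ Reach (↑F) (x', z.2 + 197 * u) h' ∧
      (z.1 ≤ x ∧ x ≤ z.1 + 20 * u) ∧ (z.1 ≤ x' ∧ x' ≤ z.1 + 20 * u) := by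
  obtain ⟨x, x', h1, h2, h3⟩ := hL
  have h4 := h3.mono (Set.inter_subset_left)
  have e1 := H.1 (x, z.2 + 3 * u) (x', z.2 + 197 * u)
    (by simp only [nv, Prod.fst_sub, Prod.snd_sub]; omega)
    (by simp only [nv, Prod.fst_sub, Prod.snd_sub]; omega) h4
  have e2 := H'.1 (x', z.2 + 197 * u) (x, z.2 + 3 * u)
    (by simp only [nv, Prod.fst_sub, Prod.snd_sub]; omega)
    (by simp only [nv, Prod.fst_sub, Prod.snd_sub]; omega) h4.symm
  exact ⟨e1.symm.trans (h4.trans e2), x, x', e1, e2, h1, h2⟩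

theorem t_CONK (hLOC : S_LOC) (hHUB : S_HUB) : S_CONK := by
  classical
  intro k0 T m u s L hP c p F hA hArm hHR
  have hu1 : 1 ≤ u := by
    rw [hP.hu]
    exact Nat.mul_pos (by have := hP.k3; omega) hP.m1
  obtain ⟨B, hB⟩ : ∃ B : ℤ, B = (T : ℤ) * u := ⟨_, rfl⟩
  obtain ⟨A, hA'⟩ : ∃ A : ℤ, A = (L : ℤ) * u := ⟨_, rfl⟩
  have hs : (s : ℤ) = 20 * B := by rw [hP.hs, hB]; push_cast; ring
  have huz : (1 : ℤ) ≤ u := by exact_mod_cast hu1
  have hB32 : 32 * (u : ℤ) ≤ B := by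
    rw [hB]
    have : (32 : ℤ) ≤ T := by exact_mod_cast hP.T32
    nlinarith
  have hL1 : 20 * A ≤ B := by
    have h1 : 20 * L ≤ T := by have := hP.hL; omega
    have h2 : (20 : ℤ) * L ≤ T := by exact_mod_cast h1
    rw [hA', hB]; nlinarith
  have hL2 : B ≤ 20 * A + 19 * u := by
    have h1 : T ≤ 20 * L + 19 := by have := hP.hL; omega
    have h2 : (T : ℤ) ≤ 20 * L + 19 := by exact_mod_cast h1
    rw [hA', hB]; nlinarith
  have hLu : (u : ℤ) ≤ A := by
    have h1 : 1 ≤ L := by have := hP.hL; have := hP.T32; omega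
    have h2 : (1 : ℤ) ≤ L := by exact_mod_cast h1
    rw [hA']; nlinarith
  set F' : Finset Edg := F ∩ boxE (8 * s) with hF'
  -- hubs of the cells in F'
  have key : ∀ i j : ℤ, -(L : ℤ) ≤ i → i ≤ 1 → -(L : ℤ) ≤ j → j ≤ L →
      bo (cz u i j) (197 * u) ⊆ boxE (8 * s) := by
    intro i j h1 h2 h3 h4
    have e1 : -A ≤ u * i := by rw [hA']; nlinarith
    have e2 : u * i ≤ u := by nlinarith
    have e3 : -A ≤ u * j := by rw [hA']; nlinarith
    have e4 : u * j ≤ A := by rw [hA']; nlinarith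
    unfold bo boxE cz
    apply RE_subset <;> push_cast <;> rw [hs] <;> nlinarith
  have hubs : ∀ i j : ℤ, ∃ h : Vtx, -(L : ℤ) ≤ i → i ≤ 1 → -(L : ℤ) ≤ j → j ≤ L →
      HubAt (cz u i j) u F' h := by
    intro i j
    by_cases hc : -(L : ℤ) ≤ i ∧ i ≤ 1 ∧ -(L : ℤ) ≤ j ∧ j ≤ L
    · obtain ⟨h1, h2, h3, h4⟩ := hc
      have hV := hA i j h1 h2 h3 h4
      have hsub := key i j h1 h2 h3 h4
      have hsub2 : bo (cz u i j) (90 * u) \ bo (cz u i j) (2 * u) ⊆ boxE (8 * s) := by
        refine Finset.Subset.trans Finset.sdiff_subset (Finset.Subset.trans ?_ hsub)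
        unfold bo
        apply RE_subset <;> push_cast <;> omega
      have hLk : Lk (cz u i j) u F' :=
        ((hLOC (cz u i j) u hu1 F F').2.1 (by rw [hF', inter_inter_of_sub hsub2])).mp hV.2.1
      obtain ⟨h, hh⟩ := hHUB (cz u i j) u F' hu1 hLk
      exact ⟨h, fun _ _ _ _ => hh⟩
    · exact ⟨0, fun h1 h2 h3 h4 => absurd ⟨h1, h2, h3, h4⟩ hc⟩
  choose hub hhub using hubs
  have hLh : ∀ i j : ℤ, -(L : ℤ) ≤ i → i ≤ 1 → -(L : ℤ) ≤ j → j ≤ L → Lh (cz u i j) u F' := by
    intro i j h1 h2 h3 h4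
    have hV := hA i j h1 h2 h3 h4
    have hsub := key i j h1 h2 h3 h4
    have h5 : LRE ((cz u i j).1 + 3 * u) ((cz u i j).1 + 197 * u) (cz u i j).2
        ((cz u i j).2 + 20 * u) ⊆ boxE (8 * s) := by
      refine Finset.Subset.trans LRE_subset_RE (Finset.Subset.trans ?_ hsub)
      unfold bo
      apply RE_subset <;> push_cast <;> omega
    exact (LRc_local h5).mp hV.2.2.2.1
  have hLv : ∀ i j : ℤ, -(L : ℤ) ≤ i → i ≤ 1 → -(L : ℤ) ≤ j → j ≤ L → Lv (cz u i j) u F' := by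
    intro i j h1 h2 h3 h4
    have hV := hA i j h1 h2 h3 h4
    have hsub := key i j h1 h2 h3 h4
    have h5 : TBE (cz u i j).1 ((cz u i j).1 + 20 * u) ((cz u i j).2 + 3 * u)
        ((cz u i j).2 + 197 * u) ⊆ boxE (8 * s) := by
      refine Finset.Subset.trans TBE_subset_RE (Finset.Subset.trans ?_ hsub)
      unfold bo
      apply RE_subset <;> push_cast <;> omega
    exact (TBc_local h5).mp hV.2.2.2.2
  -- neighbouring hubs
  have hH : ∀ i j : ℤ, -(L : ℤ) ≤ i → i + 1 ≤ 1 → -(L : ℤ) ≤ j → j ≤ L →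
      Reach (↑F') (hub i j) (hub (i + 1) j) := by
    intro i j h1 h2 h3 h4
    exact hub_horiz (by simp only [cz]; ring) (by simp only [cz])
      (hhub i j h1 (by omega) h3 h4) (hhub (i + 1) j (by omega) h2 h3 h4)
      (hLh i j h1 (by omega) h3 h4)
  have hV : ∀ i j : ℤ, -(L : ℤ) ≤ i → i ≤ 1 → -(L : ℤ) ≤ j → j + 1 ≤ L →
      Reach (↑F') (hub i j) (hub i (j + 1)) := by
    intro i j h1 h2 h3 h4
    exact (hub_vert (by simp only [cz]) (by simp only [cz]; ring)
      (hhub i j h1 h2 h3 (by omega)) (hhub i (j + 1) h1 h2 (by omega) h4)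
      (hLv i j h1 h2 h3 (by omega))).1
  have hLz : (1 : ℤ) ≤ L := by
    have h1 : 1 ≤ L := by have := hP.hL; have := hP.T32; omega
    exact_mod_cast h1
  have colUp : ∀ (i : ℤ), -(L : ℤ) ≤ i → i ≤ 1 → ∀ n : ℕ, ∀ j : ℤ, -(L : ℤ) ≤ j → j + n ≤ L →
      Reach (↑F') (hub i j) (hub i (j + n)) := by
    intro i h1 h2 n
    induction n with
    | zero => intro j _ _; simpa using Reach.refl _ _
    | succ n ih =>
      intro j h3 h4
      have e1 := ih j h3 (by push_cast at h4; omega)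
      have e2 := hV i (j + n) h1 h2 (by omega) (by push_cast at h4; omega)
      have e3 : j + ((n + 1 : ℕ) : ℤ) = j + n + 1 := by push_cast; ring
      rw [e3]
      exact e1.trans e2
  have col : ∀ (i : ℤ), -(L : ℤ) ≤ i → i ≤ 1 → ∀ j j' : ℤ, -(L : ℤ) ≤ j → j ≤ L →
      -(L : ℤ) ≤ j' → j' ≤ L → Reach (↑F') (hub i j) (hub i j') := by
    intro i h1 h2 j j' h3 h4 h5 h6
    rcases le_total j j' with h | h
    · obtain ⟨n, rfl⟩ := Int.le.dest h
      exact colUp i h1 h2 n j h3 h6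
    · obtain ⟨n, rfl⟩ := Int.le.dest h
      exact (colUp i h1 h2 n j' h5 h4).symm
  have rowUp : ∀ (j : ℤ), -(L : ℤ) ≤ j → j ≤ L → ∀ n : ℕ, ∀ i : ℤ, -(L : ℤ) ≤ i → i + n ≤ 1 →
      Reach (↑F') (hub i j) (hub (i + n) j) := by
    intro j h1 h2 n
    induction n with
    | zero => intro i _ _; simpa using Reach.refl _ _
    | succ n ih =>
      intro i h3 h4
      have e1 := ih i h3 (by push_cast at h4; omega)
      have e2 := hH (i + n) j (by omega) (by push_cast at h4; omega) h1 h2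
      have e3 : i + ((n + 1 : ℕ) : ℤ) = i + n + 1 := by push_cast; ring
      rw [e3]
      exact e1.trans e2
  have row : ∀ (j : ℤ), -(L : ℤ) ≤ j → j ≤ L → ∀ i i' : ℤ, -(L : ℤ) ≤ i → i ≤ 1 →
      -(L : ℤ) ≤ i' → i' ≤ 1 → Reach (↑F') (hub i j) (hub i' j) := by
    intro j h1 h2 i i' h3 h4 h5 h6
    rcases le_total i i' with h | h
    · obtain ⟨n, rfl⟩ := Int.le.dest h
      exact rowUp j h1 h2 n i h3 h6
    · obtain ⟨n, rfl⟩ := Int.le.dest h
      exact (rowUp j h1 h2 n i' h5 h4).symm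
  have h00 : Reach (↑F') (0, 0) (hub 0 0) := by
    obtain ⟨v, hv, hr⟩ := hArm
    have hr' : Reach (↑F') (0, 0) v := by
      rw [hF']
      apply reach_coe_inter
      refine hr.mono (Set.inter_subset_inter_right _ ?_)
      have : boxE (100 * u) ⊆ boxE (8 * s) := by
        apply boxE_mono
        have : (100 * u : ℤ) ≤ 8 * s := by rw [hs]; linarith
        exact_mod_cast this
      exact_mod_cast this
    refine (hhub 0 0 (by omega) (by omega) (by omega) (by omega)).1 (0, 0) v ?_ ?_ hr'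
    · simp [cz, nv]
    · have h1 := hv.2
      have h2 := hv.1
      unfold inR at h2
      simp only [cz, nv, Prod.fst_sub, Prod.snd_sub, mul_zero, sub_zero]
      push_cast at h1 h2
      omega
  have all : ∀ i j : ℤ, -(L : ℤ) ≤ i → i ≤ 1 → -(L : ℤ) ≤ j → j ≤ L →
      Reach (↑F') (0, 0) (hub i j) := by
    intro i j h1 h2 h3 h4
    exact h00.trans ((col 0 (by omega) (by omega) 0 j (by omega) (by omega) h3 h4).trans
      (row j h3 h4 0 i (by omega) (by omega) h1 h2))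
  have hF'F : (↑F' : Set Edg) ⊆ ↑F := by
    rw [hF', Finset.coe_inter]; exact Set.inter_subset_left
  refine ⟨?_, ?_⟩
  · intro i j h1 h2 h3 h4
    have hV' := hA i j h1 (by omega) h3 h4
    obtain ⟨w, hw1, hw2⟩ := (hhub i j h1 (by omega) h3 h4).2
    refine ⟨hV'.1, w, ?_, ?_⟩
    · exact ((hLOC (cz u i j) u hu1 F' F).2.2.2 (by rw [hF']; exact Finset.inter_subset_left)).2.2.1
        w hw1
    · exact ((all i j h1 (by omega) h3 h4).trans hw2.symm).mono hF'F
  · -- the long crossing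
    set R : Finset Edg := RE (110 * u) (290 * u) (-(290 * (u : ℤ))) (200 * A + 90 * u) with hR
    set G : Finset Edg := F ∩ R with hG
    have hsubR : ∀ j : ℤ, -1 ≤ j → j ≤ L → bo (cz u 1 j) (90 * u) ⊆ R := by
      intro j h1 h2
      have e1 : -(u : ℤ) ≤ u * j := by nlinarith
      have e2 : u * j ≤ A := by rw [hA']; nlinarith
      rw [hR]
      unfold bo cz
      apply RE_subset <;> push_cast <;> nlinarith
    have hubsG : ∀ j : ℤ, ∃ h : Vtx, -1 ≤ j → j ≤ L → HubAt (cz u 1 j) u G h := by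
      intro j
      by_cases hc : -1 ≤ j ∧ j ≤ L
      · have hV := hA 1 j (by omega) le_rfl (by omega) hc.2
        have hsub2 : bo (cz u 1 j) (90 * u) \ bo (cz u 1 j) (2 * u) ⊆ R :=
          Finset.Subset.trans Finset.sdiff_subset (hsubR j hc.1 hc.2)
        have hLk : Lk (cz u 1 j) u G :=
          ((hLOC (cz u 1 j) u hu1 F G).2.1 (by rw [hG, inter_inter_of_sub hsub2])).mp hV.2.1
        obtain ⟨h, hh⟩ := hHUB (cz u 1 j) u G hu1 hLk
        exact ⟨h, fun _ _ => hh⟩
      · exact ⟨0, fun h1 h2 => absurd ⟨h1, h2⟩ hc⟩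
    choose hubG hhubG using hubsG
    have hLvG : ∀ j : ℤ, -1 ≤ j → j + 1 ≤ L → Lv (cz u 1 j) u G := by
      intro j h1 h2
      have hV := hA 1 j (by omega) le_rfl (by omega) (by omega)
      have e1 : -(u : ℤ) ≤ u * j := by nlinarith
      have e2 : u * j + u ≤ A := by rw [hA']; nlinarith
      have h5 : TBE (cz u 1 j).1 ((cz u 1 j).1 + 20 * u) ((cz u 1 j).2 + 3 * u)
          ((cz u 1 j).2 + 197 * u) ⊆ R := by
        refine Finset.Subset.trans TBE_subset_RE ?_
        rw [hR]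
        unfold cz
        apply RE_subset <;> push_cast <;> nlinarith
      exact (TBc_local h5).mp hV.2.2.2.2
    have stepG : ∀ j : ℤ, -1 ≤ j → j + 1 ≤ L →
        Reach (↑G) (hubG j) (hubG (j + 1)) ∧ ∃ x x',
          Reach (↑G) (x, (cz u 1 j).2 + 3 * u) (hubG j) ∧
          Reach (↑G) (x', (cz u 1 j).2 + 197 * u) (hubG (j + 1)) ∧
          ((cz u 1 j).1 ≤ x ∧ x ≤ (cz u 1 j).1 + 20 * u) ∧
          ((cz u 1 j).1 ≤ x' ∧ x' ≤ (cz u 1 j).1 + 20 * u) := by
      intro j h1 h2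
      exact hub_vert (by simp only [cz]) (by simp only [cz]; ring)
        (hhubG j h1 (by omega)) (hhubG (j + 1) (by omega) h2) (hLvG j h1 h2)
    have upG : ∀ n : ℕ, -1 + (n : ℤ) ≤ L → Reach (↑G) (hubG (-1)) (hubG (-1 + n)) := by
      intro n
      induction n with
      | zero => intro _; simpa using Reach.refl _ _
      | succ n ih =>
        intro h4
        have e1 := ih (by push_cast at h4; omega)
        have e2 := (stepG (-1 + n) (by omega) (by push_cast at h4; omega)).1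
        have e3 : -1 + ((n + 1 : ℕ) : ℤ) = -1 + n + 1 := by push_cast; ring
        rw [e3]
        exact e1.trans e2
    obtain ⟨-, x0, -, g1, -, g2, -⟩ := stepG (-1) le_rfl (by omega)
    obtain ⟨-, -, x1, -, g3, -, g4⟩ := stepG (L - 1) (by omega) (by omega)
    have g5 : Reach (↑G) (hubG (-1)) (hubG (L - 1 + 1)) := by
      have := upG (L + 1) (by push_cast; omega)
      have e : -1 + ((L + 1 : ℕ) : ℤ) = (L : ℤ) - 1 + 1 := by push_cast; ring
      rwa [e] at this
    have g6 : Reach (↑G) (x0, (cz u 1 (-1)).2 + 3 * u) (x1, (cz u 1 ((L : ℤ) - 1)).2 + 197 * u) :=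
      g1.trans (g5.trans g3.symm)
    rw [hG] at g6
    have g7 := reach_inter_coe g6
    obtain ⟨y, y', hy, hy', hr⟩ := hHR
    have hr2 : Reach (↑F ∩ ↑(RE (100 * (u : ℤ)) (8 * s) 0 (2 * T * u))) (100 * (u : ℤ), y)
        ((8 * s : ℤ), y') :=
      hr.mono (Set.inter_subset_inter_right _ (by exact_mod_cast LRE_subset_RE))
    have hTu : (2 * T * u : ℤ) = 2 * B := by rw [hB]; ring
    have hcz1 : (cz u 1 (-1)).2 = -(200 * (u : ℤ)) := by simp only [cz]; ring
    have hczL : (cz u 1 ((L : ℤ) - 1)).2 = 200 * A - 200 * u := by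
      simp only [cz]; rw [hA']; ring
    rw [hR] at g7
    have m := cross_meet (F := (↑F : Set Edg)) (A := 100 * (u : ℤ)) (B := 8 * s)
      (C := -(290 * (u : ℤ))) (D := 200 * A + 90 * u) (a := 110 * u) (b := 290 * u) (c := 0)
      (d := 2 * T * u) (by omega) (by omega) (by rw [hs]; omega) (by omega)
      (by rw [hTu]; omega) (by rw [hTu]; omega) hr2 (by simp only; omega)
      (by simp only; rw [hs]; omega) g7 (by simp only; rw [hcz1]; omega)
      (by simp only; rw [hczL, hTu]; omega)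
    have hbig : RE (100 * (u : ℤ)) (8 * s) (-(290 * (u : ℤ))) (200 * A + 90 * u) ⊆
        boxE (8 * s) := by
      unfold boxE
      apply RE_subset <;> push_cast <;> rw [hs] <;> omega
    have m2 : Reach (↑F') (100 * (u : ℤ), y) (x0, (cz u 1 (-1)).2 + 3 * u) := by
      rw [hF']
      apply reach_coe_inter
      exact m.mono (Set.inter_subset_inter_right _ (by exact_mod_cast hbig))
    have m3 : Reach (↑F') (x0, (cz u 1 (-1)).2 + 3 * u) (hub 1 (-1)) := by
      -- the first link in F'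
      have hGF : (↑G : Set Edg) ⊆ ↑F' := by
        rw [hG, hF', Finset.coe_inter, Finset.coe_inter]
        refine Set.inter_subset_inter_right _ ?_
        have h1 : R ⊆ boxE (8 * s) := by
          rw [hR]
          unfold boxE
          apply RE_subset <;> push_cast <;> rw [hs] <;> omega
        exact_mod_cast h1
      have g6' : Reach (↑G) (x0, (cz u 1 (-1)).2 + 3 * u)
          (x1, (cz u 1 ((L : ℤ) - 1)).2 + 197 * u) := g1.trans (g5.trans g3.symm)
      refine (hhub 1 (-1) (by omega) le_rfl (by omega) (by omega)).1 _ _ ?_ ?_ (g6'.mono hGF)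
      · have h1 := g2
        simp only [cz] at h1
        simp only [nv, cz, Prod.fst_sub, Prod.snd_sub]
        omega
      · simp only [nv, Prod.fst_sub, Prod.snd_sub]
        rw [hczL, hcz1]
        omega
    have m4 : Reach (↑F') (100 * (u : ℤ), y) ((8 * s : ℤ), y') := by
      rw [hF']
      apply reach_coe_inter
      refine hr2.mono (Set.inter_subset_inter_right _ ?_)
      have h1 : RE (100 * (u : ℤ)) (8 * s) 0 (2 * T * u) ⊆ boxE (8 * s) := by
        unfold boxE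
        apply RE_subset <;> push_cast
        · rw [hs]; omega
        · omega
        · rw [hs]; omega
        · rw [hs, hTu]; omega
      exact_mod_cast h1
    have m5 : Reach (↑F') (0, 0) ((8 * s : ℤ), y') :=
      (all 1 (-1) (by omega) le_rfl (by omega) (by omega)).trans
        (m3.symm.trans (m2.symm.trans m4))
    refine ⟨((8 * s : ℤ), y'), ?_, ?_⟩
    · simp only; push_cast; ring
    · rw [hF'] at m5
      exact reach_inter_coe m5

end Pool.Agent.Q125.FE
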