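import Pool.Agent.Q78.FE.Stm2

/-! Project FE of helper78, job LOCW. -/

set_option autoImplicit false

namespace Pool.Agent.Q125.FE.Locw

open Finset H974 Pool.Agent.H160R2.CV Pool.Agent.H160R2.CV.Quad H362P Q78.FE

theorem inter_inter_of_sub {F S T : Finset Edg} (h : T ⊆ S) : F ∩ S ∩ T = F ∩ T := by
  ext e
  simp only [Finset.mem_inter]
  constructor
  · rintro ⟨⟨h1, -⟩, h2⟩; exact ⟨h1, h2⟩
  · rintro ⟨h1, h2⟩; exact ⟨⟨h1, h h2⟩, h2⟩

/-- the indices of the cells -/
noncomputable def II (L : ℕ) : Finset (ℤ × ℤ) := Finset.Icc (-(L : ℤ)) 1 ×ˢ Finset.Icc (-(L : ℤ)) L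

theorem Ar_iff {c p : ℝ} {u m L : ℕ} {F : Finset Edg} :
    Ar c p u m L F ↔ ∀ i ∈ II L, Vz c p (cz u i.1 i.2) u m F := by
  unfold Ar II
  simp only [Finset.mem_product, Finset.mem_Icc]
  constructor
  · rintro h ⟨i, j⟩ ⟨⟨h1, h2⟩, h3, h4⟩; exact h i j h1 h2 h3 h4
  · intro h i j h1 h2 h3 h4; exact h (i, j) ⟨⟨h1, h2⟩, h3, h4⟩

theorem II_card (L : ℕ) : (II L).card = (L + 2) * (2 * L + 1) := by
  unfold II
  rw [Finset.card_product, Int.card_Icc, Int.card_Icc]
  have h1 : (1 + 1 - -(L : ℤ)).toNat = L + 2 := by omega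
  have h2 : ((L : ℤ) + 1 - -(L : ℤ)).toNat = 2 * L + 1 := by omega
  rw [h1, h2]

theorem near_card (L u : ℕ) (hu : 1 ≤ u) (v : Vtx) :
    ((II L).filter (fun i => ¬ Disjoint (bo (cz u i.1 i.2) (197 * u)) (bo v (400 * u)))).card ≤ 49 := by
  classical
  have huz : (1 : ℤ) ≤ u := by exact_mod_cast hu
  have hU : (0 : ℤ) < 200 * u := by omega
  set a : ℤ := (v.1 - 597 * u) / (200 * u) with ha
  set b : ℤ := (v.2 - 597 * u) / (200 * u) with hb
  have ha1 : 200 * (u : ℤ) * a ≤ v.1 - 597 * u := by
    rw [ha]; exact Int.mul_ediv_self_le hU.ne'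
  have ha2 : v.1 - 597 * u < 200 * (u : ℤ) * a + 200 * u := by
    have := Int.lt_ediv_add_one_mul_self (v.1 - 597 * (u : ℤ)) hU
    rw [← ha] at this
    linarith
  have hb1 : 200 * (u : ℤ) * b ≤ v.2 - 597 * u := by
    rw [hb]; exact Int.mul_ediv_self_le hU.ne'
  have hb2 : v.2 - 597 * u < 200 * (u : ℤ) * b + 200 * u := by
    have := Int.lt_ediv_add_one_mul_self (v.2 - 597 * (u : ℤ)) hU
    rw [← hb] at this
    linarith
  have hsub : (II L).filter (fun i => ¬ Disjoint (bo (cz u i.1 i.2) (197 * u)) (bo v (400 * u))) ⊆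
      Finset.Ico a (a + 7) ×ˢ Finset.Ico b (b + 7) := by
    rintro ⟨i, j⟩ hij
    rw [Finset.mem_filter] at hij
    have h1 : ¬ (197 * u + 400 * u + 1 ≤ nv (cz u i j - v)) := fun h => hij.2 (bo_disj h)
    unfold nv cz at h1
    simp only [Prod.fst_sub, Prod.snd_sub] at h1
    have h2 : |200 * (u : ℤ) * i - v.1| ≤ 597 * u := by
      rw [abs_le]; omega
    have h3 : |200 * (u : ℤ) * j - v.2| ≤ 597 * u := by
      rw [abs_le]; omega
    rw [abs_le] at h2 h3
    simp only [Finset.mem_product, Finset.mem_Ico]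
    refine ⟨⟨?_, ?_⟩, ?_, ?_⟩
    · by_contra hc
      push Not at hc
      have : i + 1 ≤ a := hc
      nlinarith
    · by_contra hc
      push Not at hc
      nlinarith
    · by_contra hc
      push Not at hc
      have : j + 1 ≤ b := hc
      nlinarith
    · by_contra hc
      push Not at hc
      nlinarith
  refine (Finset.card_le_card hsub).trans ?_
  rw [Finset.card_product, Int.card_Ico, Int.card_Ico]
  have h1 : (a + 7 - a).toNat = 7 := by omega
  have h2 : (b + 7 - b).toNat = 7 := by omega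
  rw [h1, h2]

/-- Harris for a family -/
theorem harris_fam {ι : Type*} [DecidableEq ι] {p : Edg → ℝ} (hp : Ok p) {U : Finset Edg} {c : ℝ} (hc : 0 ≤ c)
    (V : ι → Finset Edg → Prop) (I : Finset ι) (hV : ∀ i ∈ I, IncrE U (V i))
    (hVc : ∀ i ∈ I, c ≤ Pr p U (V i)) : c ^ I.card ≤ Pr p U (fun F => ∀ i ∈ I, V i F) := by
  induction I using Finset.induction_on with
  | empty =>
    rw [Finset.card_empty, pow_zero, Pr_true]
    intro F _ i hi
    simp at hi
  | insert a I ha ih =>
    rw [Finset.card_insert_of_notMem ha, pow_succ]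
    have h1 := ih (fun i hi => hV i (Finset.mem_insert_of_mem hi))
      (fun i hi => hVc i (Finset.mem_insert_of_mem hi))
    have h2 : IncrE U (fun F => ∀ i ∈ I, V i F) := fun F G h hG hF i hi =>
      hV i (Finset.mem_insert_of_mem hi) F G h hG (hF i hi)
    have h3 := Pr_harris hp h2 (hV a (Finset.mem_insert_self _ _))
    have h4 : Pr p U (fun F => (∀ i ∈ I, V i F) ∧ V a F) = Pr p U (fun F => ∀ i ∈ insert a I, V i F) := by
      apply Pr_congr
      intro F _
      simp only [Finset.mem_insert, forall_eq_or_imp]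
      tauto
    rw [h4] at h3
    refine le_trans ?_ h3
    exact mul_le_mul h1 (hVc a (Finset.mem_insert_self _ _)) hc (Pr_nonneg hp _ _)

/-- a function decreasing, one increasing -/
theorem harris_dec {p : Edg → ℝ} (hp : Ok p) {U : Finset Edg} {f : Finset Edg → ℝ}
    (hf : Incr U f) {Q : Finset Edg → Prop} (hQ : IncrE U (fun F => ¬ Q F)) :
    Ex p U (fun F => f F * ind (Q F)) ≤ Ex p U f * Pr p U Q := by
  have h1 := harris hp hf hQ.incr
  have h2 : Ex p U (fun F => f F * ind (¬ Q F)) = Ex p U f - Ex p U (fun F => f F * ind (Q F)) := by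
    rw [← Ex_sub]
    apply Ex_congr
    intro F _
    rw [ind_not]; ring
  have h3 : Ex p U (fun F => ind (¬ Q F)) = 1 - Pr p U Q := Pr_not _ _
  rw [h2, h3] at h1
  linarith

theorem t_LOCW (_hLOC : S_LOC) (hLOCM : S_LOCM) (hLOCV : S_LOCV) : S_LOCW := by
  classical
  intro k0 T m u s L hP c p hp0 hp2 hVP n hn
  obtain ⟨hc0, hc1, hVP⟩ := hVP
  have hp1 : p ≤ 1 := by linarith
  have hok : Ok (fun _ : Edg => p) := okq hp0 hp1
  have hu1 : 1 ≤ u := by
    rw [hP.hu]
    exact Nat.mul_pos (by have := hP.k3; omega) hP.m1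
  obtain ⟨B, hB⟩ : ∃ B : ℤ, B = (T : ℤ) * u := ⟨_, rfl⟩
  obtain ⟨A, hA'⟩ : ∃ A : ℤ, A = (L : ℤ) * u := ⟨_, rfl⟩
  have hs : (s : ℤ) = 20 * B := by rw [hP.hs, hB]; push_cast; ring
  have huz : (1 : ℤ) ≤ u := by exact_mod_cast hu1
  have hB32 : 32 * (u : ℤ) ≤ B := by
    rw [hB]
    have : (32 : ℤ) ≤ T := by exact_mod_cast hP.T32
    nlinarith
  have hL1 : 20 * A ≤ B := by
    have h1 : 20 * L ≤ T := by have := hP.hL; omega
    have h2 : (20 : ℤ) * L ≤ T := by exact_mod_cast h1
    rw [hA', hB]; nlinarith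
  have hs1 : 1 ≤ s := by
    have : (1 : ℤ) ≤ s := by rw [hs]; omega
    exact_mod_cast this
  have hn8 : 8 * s ≤ n := by
    have h1 : 20 * 3 * s ≤ 20 * k0 * s := by
      have := hP.k3
      exact Nat.mul_le_mul_right s (Nat.mul_le_mul_left 20 this)
    omega
  have h100 : 100 * u ≤ 8 * s := by
    have : (100 * u : ℤ) ≤ 8 * s := by rw [hs]; omega
    exact_mod_cast this
  set U := boxE n with hU
  -- cells
  have key : ∀ i ∈ II L, bo (cz u i.1 i.2) (197 * u) ⊆ boxE s := by
    rintro ⟨i, j⟩ hij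
    unfold II at hij
    simp only [Finset.mem_product, Finset.mem_Icc] at hij
    obtain ⟨⟨h1, h2⟩, h3, h4⟩ := hij
    have e1 : -A ≤ u * i := by rw [hA']; nlinarith
    have e2 : u * i ≤ u := by nlinarith
    have e3 : -A ≤ u * j := by rw [hA']; nlinarith
    have e4 : u * j ≤ A := by rw [hA']; nlinarith
    unfold bo boxE cz
    apply RE_subset <;> push_cast <;> rw [hs] <;> nlinarith
  have hsU : boxE s ⊆ U := boxE_mono (by omega)
  have h8U : boxE (8 * s) ⊆ U := boxE_mono hn8
  have hs8 : boxE s ⊆ boxE (8 * s) := boxE_mono (by omega)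
  have hVloc : ∀ (z : Vtx) (F : Finset Edg), Vz c p z u m F ↔
      Vz c p z u m (F ∩ bo z (197 * u)) := by
    intro z F
    refine (hLOCV c p z u m hp0 hp1 hu1 F (F ∩ bo z (197 * u))).1 ?_
    rw [inter_inter_of_sub Finset.sdiff_subset]
  have hVmono : ∀ (z : Vtx) (F F' : Finset Edg), F ⊆ F' → Vz c p z u m F → Vz c p z u m F' :=
    fun z F F' h => (hLOCV c p z u m hp0 hp1 hu1 F F').2.1 h
  have hAmono : ∀ F F' : Finset Edg, F ⊆ F' → Ar c p u m L F → Ar c p u m L F' :=
    fun F F' h hF i j h1 h2 h3 h4 => hVmono _ F F' h (hF i j h1 h2 h3 h4)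
  have hAloc : ∀ (S : Finset Edg), boxE s ⊆ S → ∀ F : Finset Edg,
      Ar c p u m L F ↔ Ar c p u m L (F ∩ S) := by
    intro S hS F
    rw [Ar_iff, Ar_iff]
    refine forall₂_congr fun i hi => ?_
    rw [hVloc _ F, hVloc _ (F ∩ S), inter_inter_of_sub ((key i hi).trans hS)]
  set Q : Finset Edg → Prop := fun F => ¬ Cr (0, 0) (10 * s) (2 * k0 * (10 * s)) F with hQ
  set TQ : Finset Edg := bo (0, 0) (2 * k0 * (10 * s)) \ bo (0, 0) (10 * s) with hTQ
  have hQloc : ∀ F, Q F ↔ Q (F ∩ TQ) := by
    intro F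
    show ¬ _ ↔ ¬ _
    rw [not_iff_not]
    exact Cr_loc F
  have hQdec : IncrE U (fun F => ¬ Q F) := by
    intro F G h _ hF
    have h1 : Cr (0, 0) (10 * s) (2 * k0 * (10 * s)) F := not_not.mp hF
    exact not_not.mpr (Cr_inc _ _ _ F G h h1)
  have hTQU : TQ ⊆ U := by
    refine Finset.sdiff_subset.trans ?_
    rw [hU]
    have h1 : (2 * k0 * (10 * s)) ≤ n := by
      have : 2 * k0 * (10 * s) = 20 * k0 * s := by ring
      omega
    unfold bo boxE
    have h2 : ((2 * k0 * (10 * s) : ℕ) : ℤ) ≤ n := by exact_mod_cast h1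
    apply RE_subset <;> (try simp only) <;> omega
  have hd8 : Disjoint (boxE (8 * s)) TQ := by
    rw [Finset.disjoint_left]
    intro e h1 h2
    rw [hTQ, Finset.mem_sdiff] at h2
    apply h2.2
    have h3 : boxE (8 * s) ⊆ bo (0, 0) (10 * s) := by
      unfold bo boxE
      apply RE_subset <;> push_cast <;> (try simp only) <;> omega
    exact h3 h1
  have hds : Disjoint (boxE s) TQ := Finset.disjoint_of_subset_left hs8 hd8
  -- independence
  have indep8 : ∀ D : Finset Edg → Prop, (∀ F, D F ↔ D (F ∩ boxE (8 * s))) →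
      Pr (fun _ => p) U (fun F => D F ∧ Q F) = Pr (fun _ => p) U D * Pr (fun _ => p) U Q :=
    fun D hD => Pr_indep h8U hTQU hd8 (fun F _ => hD F) (fun F _ => hQloc F)
  have hWo : Ex (fun _ => p) U (Wo c p k0 u m L s) =
      Pr (fun _ => p) U (Ar c p u m L) * Pr (fun _ => p) U Q := by
    rw [← indep8 _ (hAloc _ hs8)]
    rfl
  have hArmloc : ∀ F, Arm (100 * u) F ↔ Arm (100 * u) (F ∩ boxE (8 * s)) := fun F =>
    Arm_local (boxE_mono h100)
  have hWt : Ex (fun _ => p) U (Wt c p k0 u m L s) =
      Pr (fun _ => p) U (fun F => Ar c p u m L F ∧ Arm (100 * u) F) * Pr (fun _ => p) U Q := by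
    rw [← indep8 _ (fun F => by rw [← hAloc _ hs8 F, ← hArmloc F])]
    unfold Pr
    apply Ex_congr
    intro F _
    unfold Wt
    apply ind_congr
    rw [hQ]
    tauto
  have hPQ0 : 0 ≤ Pr (fun _ => p) U Q := Pr_nonneg hok _ _
  have hAincr : IncrE U (Ar c p u m L) := fun F G h _ hF => hAmono F G h hF
  have hArmincr : IncrE U (Arm (100 * u)) := Arm_incr U (100 * u)
  refine ⟨?_, ?_, ?_, ?_, ?_⟩
  · intro v f hf0 hfm hfl
    have h1 := hLOCM (fun _ : Edg => p) hok U (II L) (fun i => Vz c p (cz u i.1 i.2) u m)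
      (fun i => bo (cz u i.1 i.2) (197 * u)) (bo v (400 * u)) f c 49
      (fun i _ F G h _ hF => hVmono _ F G h hF) (fun i _ F => hVloc _ F) hfl hf0 hc0.le hc1
      (fun i hi _ => hVP _ _ ((key i hi).trans hsU)) (near_card L u hu1 v)
    have h2 : Incr U (fun F => f F * ind (Ar c p u m L F)) := by
      intro F G h hG
      exact mul_le_mul (hfm F G h) (ind_mono (hAmono F G h)) (ind_nonneg _) (hf0 G)
    have h3 := harris_dec hok h2 hQdec
    have h4 : Ex (fun _ => p) U (fun F => f F * Wo c p k0 u m L s F) =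
        Ex (fun _ => p) U (fun F => (f F * ind (Ar c p u m L F)) * ind (Q F)) := by
      apply Ex_congr
      intro F _
      unfold Wo
      rw [ind_and]
      ring
    rw [h4, hWo]
    have h5 : Ex (fun _ => p) U (fun F => f F * ind (∀ i ∈ II L, Vz c p (cz u i.1 i.2) u m F)) =
        Ex (fun _ => p) U (fun F => f F * ind (Ar c p u m L F)) := by
      apply Ex_congr
      intro F _
      rw [ind_congr Ar_iff]
    have h6 : Pr (fun _ => p) U (fun F => ∀ i ∈ II L, Vz c p (cz u i.1 i.2) u m F) =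
        Pr (fun _ => p) U (Ar c p u m L) := by
      apply Pr_congr
      intro F _
      exact Ar_iff.symm
    rw [h5, h6] at h1
    calc c ^ 49 * Ex (fun _ => p) U (fun F => (f F * ind (Ar c p u m L F)) * ind (Q F))
        ≤ c ^ 49 * (Ex (fun _ => p) U (fun F => f F * ind (Ar c p u m L F)) *
            Pr (fun _ => p) U Q) := mul_le_mul_of_nonneg_left h3 (by positivity)
      _ = (c ^ 49 * Ex (fun _ => p) U (fun F => f F * ind (Ar c p u m L F))) *
            Pr (fun _ => p) U Q := by ring
      _ ≤ (Ex (fun _ => p) U f * Pr (fun _ => p) U (Ar c p u m L)) * Pr (fun _ => p) U Q :=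
          mul_le_mul_of_nonneg_right h1 hPQ0
      _ = _ := by ring
  · intro v f hf0 hfm hfl hv
    set V : Option (ℤ × ℤ) → Finset Edg → Prop := fun o => match o with
      | none => Arm (100 * u)
      | some i => Vz c p (cz u i.1 i.2) u m with hV
    set S : Option (ℤ × ℤ) → Finset Edg := fun o => match o with
      | none => boxE (100 * u)
      | some i => bo (cz u i.1 i.2) (197 * u) with hS
    have hfar : Disjoint (boxE (100 * u)) (bo v (10 * u)) := by
      have e1 : boxE (100 * u) = bo (0, 0) (100 * u) := by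
        unfold bo boxE; simp
      rw [e1]
      apply bo_disj
      have e2 : nv ((0, 0) - v) = nv v := by
        have e3 : ((0, 0) : Vtx) - v = -v := by
          have e4 : ((0, 0) : Vtx) = 0 := rfl
          rw [e4, zero_sub]
        rw [e3, nv_neg]
      rw [e2]; omega
    have hcard : ((Finset.insertNone (II L)).filter
        (fun i => ¬ Disjoint (S i) (bo v (10 * u)))).card ≤ 49 := by
      refine le_trans ?_ (near_card L u hu1 v)
      apply Finset.card_le_card_of_injOn (fun o => o.getD (0, 0))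
      · intro o ho
        rw [Finset.mem_coe, Finset.mem_filter] at ho
        cases o with
        | none => exact absurd hfar ho.2
        | some i =>
          rw [Finset.mem_coe, Finset.mem_filter]
          refine ⟨by simpa using ho.1, fun hd => ho.2 ?_⟩
          refine Finset.disjoint_of_subset_right ?_ hd
          unfold bo
          apply RE_subset <;> push_cast <;> omega
      · intro o ho o' ho' h
        rw [Finset.mem_coe, Finset.mem_filter] at ho ho'
        cases o with
        | none => exact absurd hfar ho.2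
        | some i =>
          cases o' with
          | none => exact absurd hfar ho'.2
          | some i' => simp only [Option.getD_some] at h; rw [h]
    have hall : ∀ F : Finset Edg, (∀ i ∈ Finset.insertNone (II L), V i F) ↔
        (Ar c p u m L F ∧ Arm (100 * u) F) := by
      intro F
      rw [Ar_iff]
      constructor
      · intro h
        refine ⟨fun i hi => h (some i) (by simpa using hi), h none (by simp)⟩
      · rintro ⟨h1, h2⟩ o ho
        cases o with
        | none => exact h2
        | some i => exact h1 i (by simpa using ho)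
    have h1 := hLOCM (fun _ : Edg => p) hok U (Finset.insertNone (II L)) V S (bo v (10 * u)) f c 49
      (by
        intro i _ F G h hG hF
        cases i with
        | none => exact hArmincr F G h hG hF
        | some i => exact hVmono _ F G h hF)
      (by
        intro i _ F
        cases i with
        | none => exact Arm_local (Finset.Subset.refl _)
        | some i => exact hVloc _ F) hfl hf0 hc0.le hc1
      (by
        intro i hi hd
        cases i with
        | none => exact absurd hfar hd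
        | some i => exact hVP _ _ ((key i (by simpa using hi)).trans hsU)) hcard
    have h5 : Ex (fun _ => p) U (fun F => f F * ind (∀ i ∈ Finset.insertNone (II L), V i F)) =
        Ex (fun _ => p) U (fun F => f F * ind (Ar c p u m L F ∧ Arm (100 * u) F)) := by
      apply Ex_congr
      intro F _
      rw [ind_congr (hall F)]
    have h6 : Pr (fun _ => p) U (fun F => ∀ i ∈ Finset.insertNone (II L), V i F) =
        Pr (fun _ => p) U (fun F => Ar c p u m L F ∧ Arm (100 * u) F) := by
      apply Pr_congr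
      intro F _
      exact hall F
    rw [h5, h6] at h1
    have h2 : Incr U (fun F => f F * ind (Ar c p u m L F ∧ Arm (100 * u) F)) := by
      intro F G h hG
      exact mul_le_mul (hfm F G h)
        (ind_mono (fun hF => ⟨hAmono F G h hF.1, hArmincr F G h hG hF.2⟩)) (ind_nonneg _) (hf0 G)
    have h3 := harris_dec hok h2 hQdec
    have h4 : Ex (fun _ => p) U (fun F => f F * Wt c p k0 u m L s F) =
        Ex (fun _ => p) U (fun F => (f F * ind (Ar c p u m L F ∧ Arm (100 * u) F)) *
          ind (Q F)) := by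
      apply Ex_congr
      intro F _
      unfold Wt
      rw [ind_and, ind_and, ind_and]
      ring
    rw [h4, hWt]
    calc c ^ 49 * Ex (fun _ => p) U (fun F => (f F * ind (Ar c p u m L F ∧ Arm (100 * u) F)) *
          ind (Q F))
        ≤ c ^ 49 * (Ex (fun _ => p) U (fun F => f F * ind (Ar c p u m L F ∧ Arm (100 * u) F)) *
            Pr (fun _ => p) U Q) := mul_le_mul_of_nonneg_left h3 (by positivity)
      _ = (c ^ 49 * Ex (fun _ => p) U (fun F => f F * ind (Ar c p u m L F ∧ Arm (100 * u) F))) *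
            Pr (fun _ => p) U Q := by ring
      _ ≤ (Ex (fun _ => p) U f * Pr (fun _ => p) U (fun F => Ar c p u m L F ∧ Arm (100 * u) F)) *
            Pr (fun _ => p) U Q := mul_le_mul_of_nonneg_right h1 hPQ0
      _ = _ := by ring
  · have hHRloc : ∀ F, HR u T s F ↔ HR u T s (F ∩ boxE (8 * s)) := by
      intro F
      unfold Q78.FE.HR
      refine LRc_local (LRE_subset_RE.trans ?_)
      unfold boxE
      have hTu : (2 * T * u : ℤ) = 2 * B := by rw [hB]; ring
      apply RE_subset <;> push_cast <;> (try rw [hTu]) <;> (try rw [hs]) <;> omega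
    have h1 : Ex (fun _ => p) U (fun F => Wt c p k0 u m L s F * ind (HR u T s F)) =
        Pr (fun _ => p) U (fun F => (Ar c p u m L F ∧ Arm (100 * u) F) ∧ HR u T s F) *
          Pr (fun _ => p) U Q := by
      rw [← indep8 _ (fun F => by rw [← hAloc _ hs8 F, ← hArmloc F, ← hHRloc F])]
      unfold Pr
      apply Ex_congr
      intro F _
      unfold Wt
      rw [← ind_and]
      apply ind_congr
      rw [hQ]
      tauto
    rw [h1, hWt]
    have h2 := Pr_harris hok (S := U) (A := fun F => Ar c p u m L F ∧ Arm (100 * u) F)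
      (B := HR u T s) (fun F G h hG hF => ⟨hAmono F G h hF.1, hArmincr F G h hG hF.2⟩)
      (fun F G h _ hF => LRc.mono h hF)
    calc Pr (fun _ => p) U (HR u T s) * (Pr (fun _ => p) U (fun F => Ar c p u m L F ∧
          Arm (100 * u) F) * Pr (fun _ => p) U Q)
        = (Pr (fun _ => p) U (fun F => Ar c p u m L F ∧ Arm (100 * u) F) *
            Pr (fun _ => p) U (HR u T s)) * Pr (fun _ => p) U Q := by ring
      _ ≤ _ := mul_le_mul_of_nonneg_right h2 hPQ0
  · rw [hWo, hWt]
    have h2 := Pr_harris hok (S := U) hAincr hArmincr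
    have h3 : Pr (fun _ => p) U (Arm (100 * u)) = arm p (100 * u) :=
      pr_Arm p ((boxE_mono h100).trans h8U)
    rw [h3] at h2
    calc arm p (100 * u) * (Pr (fun _ => p) U (Ar c p u m L) * Pr (fun _ => p) U Q)
        = (Pr (fun _ => p) U (Ar c p u m L) * arm p (100 * u)) * Pr (fun _ => p) U Q := by ring
      _ ≤ _ := mul_le_mul_of_nonneg_right h2 hPQ0
  · intro hK
    rw [hWo]
    have g1 : ∀ i ∈ II L, IncrE U (Vz c p (cz u i.1 i.2) u m) :=
      fun i _ F G h _ hF => hVmono _ F G h hF
    have g2 : ∀ i ∈ II L, c ≤ Pr (fun _ => p) U (Vz c p (cz u i.1 i.2) u m) :=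
      fun i hi => hVP _ _ ((key i hi).trans hsU)
    have h1 := harris_fam (p := fun _ : Edg => p) hok (U := U) (c := c) hc0.le
      (fun i : ℤ × ℤ => Vz c p (cz u i.1 i.2) u m) (II L) g1 g2
    have h2 : Pr (fun _ => p) U (fun F => ∀ i ∈ II L, Vz c p (cz u i.1 i.2) u m F) =
        Pr (fun _ => p) U (Ar c p u m L) := by
      apply Pr_congr
      intro F _
      exact Ar_iff.symm
    rw [h2, II_card] at h1
    have h3 : 1 / 2 ≤ Pr (fun _ => p) U Q := by
      rw [hQ, Pr_not]
      have := hK.2 p hp0 hp2 (10 * s) (by omega) (0, 0) U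
      linarith
    have h4 : 0 ≤ Pr (fun _ => p) U (Ar c p u m L) := Pr_nonneg hok _ _
    generalize Pr (fun _ => p) U (Ar c p u m L) = a1 at h1 h4 ⊢
    generalize Pr (fun _ => p) U Q = a2 at h3 ⊢
    generalize c ^ ((L + 2) * (2 * L + 1)) = a3 at h1 ⊢
    nlinarith

end Pool.Agent.Q125.FE.Locw
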