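import Pool.Agent.Q78.FE.Stm2

/-! Project FE of helper78, job MASS: core. -/

set_option autoImplicit false

namespace Pool.Agent.Q125.FE.Mass

open Finset H974 Pool.Agent.H160R2.CV Pool.Agent.H160R2.CV.Quad H362P Q78.FE

theorem sz_sum (n : ℕ) (F : Finset Edg) :
    (Sz n (0, 0) F : ℝ) = ∑ v ∈ bx n, ind (Reach (↑F) (0, 0) v) := by
  classical
  unfold Sz
  have : ((bx n).filter (fun v => Reach (↑F) (0, 0) v)).card =
      ∑ v ∈ bx n, (if Reach (↑F) (0, 0) v then 1 else 0) := by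
    rw [Finset.card_filter]
  have h2 : (((bx n).filter (fun v => Reach (↑F) (0, 0) v)).card : ℝ) =
      ∑ v ∈ bx n, ind (Reach (↑F) (0, 0) v) := by
    rw [this]
    push_cast
    apply Finset.sum_congr rfl
    intro v _
    by_cases h : Reach (↑F) (0, 0) v
    · rw [if_pos h, ind_of h]
    · rw [if_neg h, ind_not_of h]
  convert h2

theorem mem_bx {n : ℕ} {v : Vtx} : v ∈ bx n ↔ nv v ≤ n := by
  unfold bx nv
  simp only [Finset.mem_product, Finset.mem_Icc]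
  omega

theorem bx_card (n : ℕ) : (bx n).card = (2 * n + 1) ^ 2 := by
  unfold bx
  rw [Finset.card_product, Int.card_Icc]
  have : ((n : ℤ) + 1 - -(n : ℤ)).toNat = 2 * n + 1 := by omega
  rw [this, sq]

/-- the function of the near vertices -/
noncomputable def fn (u : ℕ) (F : Finset Edg) : ℝ :=
  ind (LA 0 (8 * (12 * u)) F) * ∑ y ∈ bx (288 * u), ind (LA y (8 * (12 * u)) F)

theorem fn_nonneg (u : ℕ) (F : Finset Edg) : 0 ≤ fn u F :=
  mul_nonneg (ind_nonneg _) (Finset.sum_nonneg fun _ _ => ind_nonneg _)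

theorem fn_mono (u : ℕ) (F G : Finset Edg) (h : F ⊆ G) : fn u F ≤ fn u G := by
  unfold fn
  exact mul_le_mul (ind_mono (LA_inc _ _ F G h))
    (Finset.sum_le_sum fun y _ => ind_mono (LA_inc y _ F G h))
    (Finset.sum_nonneg fun _ _ => ind_nonneg _) (ind_nonneg _)

theorem fn_loc (u : ℕ) (F : Finset Edg) : fn u F = fn u (F ∩ bo 0 (400 * u)) := by
  unfold fn
  have h1 : LA 0 (8 * (12 * u)) F ↔ LA 0 (8 * (12 * u)) (F ∩ bo 0 (400 * u)) := by
    refine LA_loc ?_ F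
    unfold bo
    apply RE_subset <;> push_cast <;> omega
  rw [ind_congr h1]
  congr 1
  apply Finset.sum_congr rfl
  intro y hy
  rw [mem_bx] at hy
  apply ind_congr
  refine LA_loc ?_ F
  unfold nv at hy
  unfold bo
  apply RE_subset <;> push_cast <;> simp only [Prod.fst_zero, Prod.snd_zero] <;> omega

/-- pointwise bound -/
theorem pw (hCONK : S_CONK) {k0 T m u s L : ℕ} (hP : Pm k0 T m u s L) (c p : ℝ) {n : ℕ}
    (_hn : 20 * k0 * s ≤ n) (F : Finset Edg) :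
    (Sz n (0, 0) F : ℝ) * (Wt c p k0 u m L s F * ind (HR u T s F)) ≤
      (∑ v ∈ (bx (20 * k0 * s)).filter (fun v => 288 * u < nv v),
        ind (LA v u F) * Wt c p k0 u m L s F) + fn u F * Wo c p k0 u m L s F := by
  classical
  have hW0 : 0 ≤ Wt c p k0 u m L s F := ind_nonneg _
  have hO0 : 0 ≤ Wo c p k0 u m L s F := ind_nonneg _
  have hR0 : 0 ≤ (∑ v ∈ (bx (20 * k0 * s)).filter (fun v => 288 * u < nv v),
        ind (LA v u F) * Wt c p k0 u m L s F) + fn u F * Wo c p k0 u m L s F :=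
    add_nonneg (Finset.sum_nonneg fun _ _ => mul_nonneg (ind_nonneg _) hW0)
      (mul_nonneg (fn_nonneg u F) hO0)
  by_cases hHR : HR u T s F
  swap
  · rw [ind_not_of hHR, mul_zero, mul_zero]; exact hR0
  by_cases hE : Ar c p u m L F ∧ Arm (100 * u) F ∧ ¬ Cr (0, 0) (10 * s) (2 * k0 * (10 * s)) F
  swap
  · have : Wt c p k0 u m L s F = 0 := ind_not_of hE
    rw [this] at hR0 ⊢
    rw [zero_mul, mul_zero]; exact hR0
  have hWt1 : Wt c p k0 u m L s F = 1 := ind_of hE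
  have hWo1 : Wo c p k0 u m L s F = 1 := ind_of ⟨hE.1, hE.2.2⟩
  rw [hWt1, hWo1, ind_of hHR]
  simp only [mul_one]
  obtain ⟨-, v', hv', hr'⟩ := hCONK k0 T m u s L hP c p F hE.1 hE.2.1 hHR
  simp only at hv'
  have hr'' : Reach (↑F) (0, 0) v' := hr'.mono Set.inter_subset_left
  have hs : 640 * u ≤ s := by
    rw [hP.hs]
    have := hP.T32
    nlinarith
  have hsz : (640 * u : ℤ) ≤ s := by exact_mod_cast hs
  have hzero : ((0, 0) : Vtx) = 0 := rfl
  have key : ∀ v : Vtx, Reach (↑F) (0, 0) v → nv v ≤ 20 * k0 * s := by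
    intro v hr
    by_contra hc
    push Not at hc
    apply hE.2.2
    apply Cr_of_far
    refine ⟨v, ?_, hr⟩
    rw [hzero, sub_zero]
    have : 2 * k0 * (10 * s) = 20 * k0 * s := by ring
    omega
  have hfar : ∀ v : Vtx, 288 * u < nv v → ind (Reach (↑F) (0, 0) v) ≤ ind (LA v u F) := by
    intro v hv
    apply ind_mono
    intro hr
    refine LA_of_reach (u := (0, 0)) ?_ hr.symm
    have h1 : nv ((0, 0) - v) = nv v := by rw [hzero, zero_sub, nv_neg]
    rw [h1]; omega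
  have hLA0 : LA 0 (8 * (12 * u)) F := by
    refine LA_of_reach (u := v') ?_ hr''
    rw [sub_zero]
    unfold nv
    push_cast at hv'
    omega
  have hnear : ∀ v : Vtx, nv v ≤ 288 * u → ind (Reach (↑F) (0, 0) v) ≤
      ind (LA v (8 * (12 * u)) F) := by
    intro v hv
    apply ind_mono
    intro hr
    refine LA_of_reach (u := v') ?_ (hr.symm.trans hr'')
    unfold nv at hv ⊢
    simp only [Prod.fst_sub, Prod.snd_sub]
    push_cast at hv'
    omega
  rw [sz_sum]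
  have h1 : ∑ v ∈ bx n, ind (Reach (↑F) (0, 0) v) ≤
      ∑ v ∈ (bx (20 * k0 * s)).filter (fun v => 288 * u < nv v) ∪ bx (288 * u),
        ind (Reach (↑F) (0, 0) v) := by
    rw [← Finset.sum_filter_add_sum_filter_not (bx n) (fun v => nv v ≤ 20 * k0 * s)]
    have h2 : ∑ v ∈ (bx n).filter (fun v => ¬ nv v ≤ 20 * k0 * s), ind (Reach (↑F) (0, 0) v) = 0 := by
      apply Finset.sum_eq_zero
      intro v hv
      rw [Finset.mem_filter] at hv
      exact ind_not_of (fun h => hv.2 (key v h))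
    rw [h2, add_zero]
    apply Finset.sum_le_sum_of_subset_of_nonneg
    · intro v hv
      rw [Finset.mem_filter] at hv
      rw [Finset.mem_union, Finset.mem_filter, mem_bx, mem_bx]
      by_cases h : 288 * u < nv v
      · left; exact ⟨hv.2, h⟩
      · right; omega
    · intro v _ _
      exact ind_nonneg _
  refine h1.trans ?_
  rw [Finset.sum_union]
  · refine add_le_add ?_ ?_
    · apply Finset.sum_le_sum
      intro v hv
      rw [Finset.mem_filter] at hv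
      exact hfar v hv.2
    · unfold fn
      rw [ind_of hLA0, one_mul]
      apply Finset.sum_le_sum
      intro v hv
      rw [mem_bx] at hv
      exact hnear v hv
  · rw [Finset.disjoint_left]
    intro v h1 h2
    rw [Finset.mem_filter] at h1
    rw [mem_bx] at h2
    omega

/-- the form of the sharp estimates which is used -/
def HA : Prop := ∃ C : ℝ, 0 < C ∧ ∀ n : ℕ, 1 ≤ n → ar n ≤ C * (n : ℝ) ^ (-(5 / 48 : ℝ))

/-- the first moment -/
def HM : Prop := ∃ A b : ℝ, 0 < A ∧ 0 < b ∧ ∀ m : ℕ, 1 ≤ m → ∀ S : Finset Edg,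
    ∀ B : Finset Vtx, (∀ x ∈ B, nv x ≤ 24 * m) →
    Ex P S (fun F => ind (LA 0 (8 * m) F) * ∑ y ∈ B, ind (LA y (8 * m) F)) ≤
      A * (m : ℝ) ^ (-(5 / 48 : ℝ)) * (b * (m : ℝ) ^ (91 / 48 : ℝ))

theorem mass_core (hA : HA) (hM : HM) (_hLOC : S_LOC) (hCONK : S_CONK) (hLOCW : S_LOCW) (hPHR : S_PHR) :
    S_MASS := by
  classical
  intro k0 κ a c hκ ha hc
  obtain ⟨C1, hC1, h1⟩ := hA
  obtain ⟨A, b, hA, hb, h2⟩ := hM
  refine ⟨(κ ^ 11)⁻¹ * ((c ^ 49)⁻¹ * ((41 * (k0 + 1 : ℝ)) ^ 2 * C1 + 14400 * (A * b) / a)), by positivity, ?_⟩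
  intro T m u s L hP p hNW hVP n hn
  have hp0 : 0 ≤ p := by linarith [hNW.lo]
  have hp2 : p ≤ 1 / 2 := hNW.hi
  have hok : Ok (fun _ : Edg => p) := okq hp0 (by linarith)
  have hu1 : 1 ≤ u := by
    rw [hP.hu]
    exact Nat.mul_pos (by have := hP.k3; omega) hP.m1
  have hu0 : (0 : ℝ) < u := by exact_mod_cast hu1
  have hs : 640 * u ≤ s := by
    rw [hP.hs]
    have := hP.T32
    nlinarith
  have hs1 : 1 ≤ s := by omega
  have hs0 : (1 : ℝ) ≤ s := by exact_mod_cast hs1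
  set U := boxE n with hU
  obtain ⟨L1, L2, L3, L4, -⟩ := hLOCW k0 T m u s L hP c p hp0 hp2 hVP n hn
  have hW0 : 0 ≤ Ex (fun _ => p) U (Wt c p k0 u m L s) := Ex_nonneg hok (fun F _ => ind_nonneg _)
  have hO0 : 0 ≤ Ex (fun _ => p) U (Wo c p k0 u m L s) := Ex_nonneg hok (fun F _ => ind_nonneg _)
  have hc49 : 0 < c ^ 49 := by positivity
  -- far vertices
  have hupow : 0 < (u : ℝ) ^ (-(5 / 48) : ℝ) := Real.rpow_pos_of_pos hu0 _
  have farE : ∀ v : Vtx, 288 * u < nv v → Ex (fun _ => p) U (fun F => ind (LA v u F) * Wt c p k0 u m L s F) ≤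
      (c ^ 49)⁻¹ * (C1 * (u : ℝ) ^ (-(5 / 48) : ℝ)) * Ex (fun _ => p) U (Wt c p k0 u m L s) := by
    intro v hv
    have e1 := L2 v (fun F => ind (LA v u F)) (fun F => ind_nonneg _)
      (fun F F' h => ind_mono (LA_inc v u F F' h))
      (fun F => ind_congr (LA_loc (by unfold bo; apply RE_subset <;> push_cast <;> omega) F))
      (by omega)
    have e2 : Ex (fun _ => p) U (fun F => ind (LA v u F)) ≤ C1 * (u : ℝ) ^ (-(5 / 48) : ℝ) := by
      have e3 : Pr (fun _ => p) U (LA v u) ≤ Pr P U (LA v u) :=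
        Pr_mono_param hok okP (fun _ => hp2) (fun F G h _ hF => LA_inc v u F G h hF)
      exact e3.trans ((pr_LA U v u).trans (h1 u hu1))
    have e4 : c ^ 49 * Ex (fun _ => p) U (fun F => ind (LA v u F) * Wt c p k0 u m L s F) ≤
        (C1 * (u : ℝ) ^ (-(5 / 48) : ℝ)) * Ex (fun _ => p) U (Wt c p k0 u m L s) :=
      e1.trans (mul_le_mul_of_nonneg_right e2 hW0)
    calc Ex (fun _ => p) U (fun F => ind (LA v u F) * Wt c p k0 u m L s F)
        = (c ^ 49)⁻¹ * (c ^ 49 * Ex (fun _ => p) U (fun F => ind (LA v u F) * Wt c p k0 u m L s F)) := by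
          rw [← mul_assoc, inv_mul_cancel₀ hc49.ne', one_mul]
      _ ≤ (c ^ 49)⁻¹ * ((C1 * (u : ℝ) ^ (-(5 / 48) : ℝ)) * Ex (fun _ => p) U (Wt c p k0 u m L s)) :=
          mul_le_mul_of_nonneg_left e4 (by positivity)
      _ = _ := by ring
  -- near vertices
  have nearE : Ex (fun _ => p) U (fun F => fn u F * Wo c p k0 u m L s F) ≤
      (c ^ 49)⁻¹ * (14400 * (A * b) / a * (u : ℝ) ^ (91 / 48 : ℝ)) *
        Ex (fun _ => p) U (Wt c p k0 u m L s) := by
    have e1 := L1 0 (fn u) (fn_nonneg u) (fn_mono u) (fn_loc u)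
    have e2 : Ex (fun _ => p) U (fn u) ≤ Ex P U (fn u) :=
      Ex_mono_param hok okP (fun _ => hp2) (fun F G h _ => fn_mono u F G h)
    have e3 := h2 (12 * u) (by omega) U (bx (288 * u)) (fun x hx => by rw [mem_bx] at hx; omega)
    have e3' : Ex P U (fn u) ≤ A * ((12 * u : ℕ) : ℝ) ^ (-(5 / 48 : ℝ)) *
        (b * ((12 * u : ℕ) : ℝ) ^ (91 / 48 : ℝ)) := e3
    have e4 : ((12 * u : ℕ) : ℝ) ^ (-(5 / 48 : ℝ)) ≤ (u : ℝ) ^ (-(5 / 48 : ℝ)) := by
      apply Real.rpow_le_rpow_of_nonpos hu0 _ (by norm_num)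
      push_cast; linarith
    have e5 : ((12 * u : ℕ) : ℝ) ^ (91 / 48 : ℝ) ≤ 144 * (u : ℝ) ^ (91 / 48 : ℝ) := by
      push_cast
      rw [Real.mul_rpow (by norm_num) hu0.le]
      apply mul_le_mul_of_nonneg_right _ (by positivity)
      calc (12 : ℝ) ^ (91 / 48 : ℝ) ≤ (12 : ℝ) ^ (2 : ℝ) :=
            Real.rpow_le_rpow_of_exponent_le (by norm_num) (by norm_num)
        _ = 144 := by norm_num
    have e6 : Ex (fun _ => p) U (fn u) ≤ (u : ℝ) ^ (-(5 / 48 : ℝ)) * (144 * (A * b) * (u : ℝ) ^ (91 / 48 : ℝ)) := by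
      calc Ex (fun _ => p) U (fn u) ≤ A * ((12 * u : ℕ) : ℝ) ^ (-(5 / 48 : ℝ)) *
            (b * ((12 * u : ℕ) : ℝ) ^ (91 / 48 : ℝ)) := e2.trans e3'
        _ ≤ A * (u : ℝ) ^ (-(5 / 48 : ℝ)) * (b * (144 * (u : ℝ) ^ (91 / 48 : ℝ))) := by
            apply mul_le_mul
            · exact mul_le_mul_of_nonneg_left e4 hA.le
            · exact mul_le_mul_of_nonneg_left e5 hb.le
            · positivity
            · positivity
        _ = _ := by ring
    -- the arm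
    have e7 : a / 100 * (u : ℝ) ^ (-(5 / 48 : ℝ)) ≤ arm p (100 * u) := by
      refine le_trans ?_ (hNW.arm (100 * u) (by omega) (by omega))
      push_cast
      rw [Real.mul_rpow (by norm_num) hu0.le]
      have e8 : (1 / 100 : ℝ) ≤ (100 : ℝ) ^ (-(5 / 48 : ℝ)) := by
        calc (1 / 100 : ℝ) = (100 : ℝ) ^ (-1 : ℝ) := by
              rw [Real.rpow_neg (by norm_num), Real.rpow_one]; norm_num
          _ ≤ _ := Real.rpow_le_rpow_of_exponent_le (by norm_num) (by norm_num)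
      have e9 : a / 100 * (u : ℝ) ^ (-(5 / 48 : ℝ)) = a * ((1 / 100) * (u : ℝ) ^ (-(5 / 48 : ℝ))) := by
        ring
      rw [e9]
      apply mul_le_mul_of_nonneg_left _ ha.le
      exact mul_le_mul_of_nonneg_right e8 hupow.le
    have e10 : a / 100 * (u : ℝ) ^ (-(5 / 48 : ℝ)) * Ex (fun _ => p) U (Wo c p k0 u m L s) ≤
        Ex (fun _ => p) U (Wt c p k0 u m L s) :=
      (mul_le_mul_of_nonneg_right e7 hO0).trans L4
    have e11 : c ^ 49 * Ex (fun _ => p) U (fun F => fn u F * Wo c p k0 u m L s F) ≤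
        (14400 * (A * b) / a * (u : ℝ) ^ (91 / 48 : ℝ)) * Ex (fun _ => p) U (Wt c p k0 u m L s) := by
      calc c ^ 49 * Ex (fun _ => p) U (fun F => fn u F * Wo c p k0 u m L s F)
          ≤ Ex (fun _ => p) U (fn u) * Ex (fun _ => p) U (Wo c p k0 u m L s) := e1
        _ ≤ ((u : ℝ) ^ (-(5 / 48 : ℝ)) * (144 * (A * b) * (u : ℝ) ^ (91 / 48 : ℝ))) *
              Ex (fun _ => p) U (Wo c p k0 u m L s) := mul_le_mul_of_nonneg_right e6 hO0
        _ = (14400 * (A * b) / a * (u : ℝ) ^ (91 / 48 : ℝ)) *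
              (a / 100 * (u : ℝ) ^ (-(5 / 48 : ℝ)) * Ex (fun _ => p) U (Wo c p k0 u m L s)) := by
            field_simp
            ring
        _ ≤ _ := mul_le_mul_of_nonneg_left e10 (by positivity)
    calc Ex (fun _ => p) U (fun F => fn u F * Wo c p k0 u m L s F)
        = (c ^ 49)⁻¹ * (c ^ 49 * Ex (fun _ => p) U (fun F => fn u F * Wo c p k0 u m L s F)) := by
          rw [← mul_assoc, inv_mul_cancel₀ hc49.ne', one_mul]
      _ ≤ (c ^ 49)⁻¹ * ((14400 * (A * b) / a * (u : ℝ) ^ (91 / 48 : ℝ)) *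
            Ex (fun _ => p) U (Wt c p k0 u m L s)) := mul_le_mul_of_nonneg_left e11 (by positivity)
      _ = _ := by ring
  -- sum
  have hsum : Ex (fun _ => p) U (fun F => (Sz n (0, 0) F : ℝ) *
      (Wt c p k0 u m L s F * ind (HR u T s F))) ≤
      (((bx (20 * k0 * s)).filter (fun v => 288 * u < nv v)).card : ℝ) *
        ((c ^ 49)⁻¹ * (C1 * (u : ℝ) ^ (-(5 / 48) : ℝ)) * Ex (fun _ => p) U (Wt c p k0 u m L s)) +
      (c ^ 49)⁻¹ * (14400 * (A * b) / a * (u : ℝ) ^ (91 / 48 : ℝ)) *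
        Ex (fun _ => p) U (Wt c p k0 u m L s) := by
    refine (Ex_mono hok (fun F _ => pw hCONK hP c p hn F)).trans ?_
    rw [Ex_add]
    refine add_le_add ?_ nearE
    rw [Ex_sum]
    have e1 : ∀ v ∈ (bx (20 * k0 * s)).filter (fun v => 288 * u < nv v),
        Ex (fun _ => p) U (fun F => ind (LA v u F) * Wt c p k0 u m L s F) ≤
        (c ^ 49)⁻¹ * (C1 * (u : ℝ) ^ (-(5 / 48) : ℝ)) * Ex (fun _ => p) U (Wt c p k0 u m L s) := by
      intro v hv
      rw [Finset.mem_filter] at hv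
      exact farE v hv.2
    have e2 := Finset.sum_le_card_nsmul _ _ _ e1
    rw [nsmul_eq_mul] at e2
    exact e2
  have hcard : (((bx (20 * k0 * s)).filter (fun v => 288 * u < nv v)).card : ℝ) ≤
      (41 * (k0 + 1 : ℝ)) ^ 2 * (s : ℝ) ^ 2 := by
    have e1 : ((bx (20 * k0 * s)).filter (fun v => 288 * u < nv v)).card ≤
        (2 * (20 * k0 * s) + 1) ^ 2 := by
      rw [← bx_card]
      exact Finset.card_filter_le _ _
    have e2 : (((bx (20 * k0 * s)).filter (fun v => 288 * u < nv v)).card : ℝ) ≤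
        (2 * (20 * k0 * s) + 1) ^ 2 := by exact_mod_cast e1
    refine e2.trans ?_
    rw [← mul_pow]
    apply pow_le_pow_left₀ (by positivity)
    have e3 : (0 : ℝ) ≤ k0 := Nat.cast_nonneg _
    nlinarith
  have hupow2 : (u : ℝ) ^ (91 / 48 : ℝ) ≤ (s : ℝ) ^ 2 * (u : ℝ) ^ (-(5 / 48) : ℝ) := by
    have e1 : (u : ℝ) ^ (91 / 48 : ℝ) = (u : ℝ) ^ (2 : ℕ) * (u : ℝ) ^ (-(5 / 48) : ℝ) := by
      rw [← Real.rpow_natCast, ← Real.rpow_add hu0]
      norm_num
    rw [e1]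
    apply mul_le_mul_of_nonneg_right _ hupow.le
    apply pow_le_pow_left₀ hu0.le
    have : u ≤ s := by omega
    exact_mod_cast this
  set W := Ex (fun _ => p) U (Wt c p k0 u m L s) with hW
  have hfin : Ex (fun _ => p) U (fun F => (Sz n (0, 0) F : ℝ) *
      (Wt c p k0 u m L s F * ind (HR u T s F))) ≤
      (c ^ 49)⁻¹ * ((41 * (k0 + 1 : ℝ)) ^ 2 * C1 + 14400 * (A * b) / a) *
        ((s : ℝ) ^ 2 * (u : ℝ) ^ (-(5 / 48) : ℝ)) * W := by
    refine hsum.trans ?_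
    have g1 : (((bx (20 * k0 * s)).filter (fun v => 288 * u < nv v)).card : ℝ) *
        ((c ^ 49)⁻¹ * (C1 * (u : ℝ) ^ (-(5 / 48) : ℝ)) * W) ≤
        (41 * (k0 + 1 : ℝ)) ^ 2 * (s : ℝ) ^ 2 * ((c ^ 49)⁻¹ * (C1 * (u : ℝ) ^ (-(5 / 48) : ℝ)) * W) :=
      mul_le_mul_of_nonneg_right hcard (by positivity)
    have g2 : (c ^ 49)⁻¹ * (14400 * (A * b) / a * (u : ℝ) ^ (91 / 48 : ℝ)) * W ≤
        (c ^ 49)⁻¹ * (14400 * (A * b) / a * ((s : ℝ) ^ 2 * (u : ℝ) ^ (-(5 / 48) : ℝ))) * W := by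
      apply mul_le_mul_of_nonneg_right _ hW0
      apply mul_le_mul_of_nonneg_left _ (by positivity)
      exact mul_le_mul_of_nonneg_left hupow2 (by positivity)
    calc _ ≤ _ := add_le_add g1 g2
      _ = _ := by ring
  -- the long crossing
  have hHR := hPHR k0 T m u s L hP κ a p hNW n hn
  have hlast : κ ^ 11 * W ≤ Ex (fun _ => p) U (fun F => Wt c p k0 u m L s F * ind (HR u T s F)) :=
    (mul_le_mul_of_nonneg_right hHR hW0).trans L3
  have hWle : W ≤ (κ ^ 11)⁻¹ * Ex (fun _ => p) U (fun F => Wt c p k0 u m L s F * ind (HR u T s F)) := by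
    have h11 : 0 < κ ^ 11 := by positivity
    calc W = (κ ^ 11)⁻¹ * (κ ^ 11 * W) := by rw [← mul_assoc, inv_mul_cancel₀ h11.ne', one_mul]
      _ ≤ _ := mul_le_mul_of_nonneg_left hlast (by positivity)
  refine hfin.trans ?_
  calc (c ^ 49)⁻¹ * ((41 * (k0 + 1 : ℝ)) ^ 2 * C1 + 14400 * (A * b) / a) *
        ((s : ℝ) ^ 2 * (u : ℝ) ^ (-(5 / 48) : ℝ)) * W
      ≤ (c ^ 49)⁻¹ * ((41 * (k0 + 1 : ℝ)) ^ 2 * C1 + 14400 * (A * b) / a) *
        ((s : ℝ) ^ 2 * (u : ℝ) ^ (-(5 / 48) : ℝ)) *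
        ((κ ^ 11)⁻¹ * Ex (fun _ => p) U (fun F => Wt c p k0 u m L s F * ind (HR u T s F))) :=
        mul_le_mul_of_nonneg_left hWle (by positivity)
    _ = _ := by ring

end Pool.Agent.Q125.FE.Mass
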