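import Pool.Agent.Q291.CS.Exm
import Pool.Agent.Q125.FE.Mass0

/-! Project FE of helper78, job MASS. -/

set_option autoImplicit false

namespace Pool.Agent.Q125.FE.Mass

open Finset H974 Pool.Agent.H160R2.CV Pool.Agent.H160R2.CV.Quad H362P Q78.FE

theorem hA : HA := by
  obtain ⟨c, C, hc, hC, h⟩ := Pool.Agent.H160R2.SA.arSharp
  exact ⟨C, hC, fun n hn => (h n hn).2⟩

theorem hM : HM := by
  obtain ⟨A, b, hA, hb, h⟩ := Q291.CS.mom_arm
  refine ⟨A, b, hA, hb, fun m hm S B hB => ?_⟩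
  have h1 := (h m hm S B hB).2 0
  have h2 : Ex P S (fun F => ind (LA 0 (8 * m) F) * ∑ y ∈ B, ind (LA y (8 * m) F)) =
      Ex P S (fun F => ind (Q291.CS.QQ (8 * m) {0} F) * Q291.CS.VV (8 * m) B F ^ (0 + 1)) := by
    apply Ex_congr
    intro F _
    have h3 : LA 0 (8 * m) F ↔ Q291.CS.QQ (8 * m) {0} F := by
      unfold Q291.CS.QQ
      simp
    rw [ind_congr h3, zero_add, pow_one]
    rfl
  rw [h2]
  refine h1.trans (le_of_eq ?_)
  simp

theorem t_MASS (hLOC : S_LOC) (hCONK : S_CONK) (hLOCW : S_LOCW) (hPHR : S_PHR) : S_MASS :=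
  mass_core hA hM hLOC hCONK hLOCW hPHR

end Pool.Agent.Q125.FE.Mass
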