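import Pool.Agent.Q78.FE.Stm2

/-! Project FE of helper78, job SML. -/

set_option autoImplicit false

namespace Pool.Agent.Q125.FE.Sml

open Finset H974 Pool.Agent.H160R2.CV Pool.Agent.H160R2.CV.Quad H362P Q78.FE

/-- the edges with an end on the segment -/
noncomputable def Wd (N : ℕ) : Finset Edg :=
  ((Finset.Icc (-1 : ℤ) ((N : ℤ) - 1)).image (fun x => ((x, 0, true) : Edg))) ∪
  (((Finset.Icc (0 : ℤ) ((N : ℤ) - 1)).image (fun x => ((x, 0, false) : Edg))) ∪
  ((Finset.Icc (0 : ℤ) ((N : ℤ) - 1)).image (fun x => ((x, -1, false) : Edg))))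

/-- the edges of the segment -/
noncomputable def Pth (N : ℕ) : Finset Edg := (Finset.Ico (0 : ℤ) ((N : ℤ) - 1)).image (fun x => ((x, 0, true) : Edg))

theorem Pth_sub (N : ℕ) : Pth N ⊆ Wd N := by
  intro e he
  unfold Pth at he
  unfold Wd
  rw [Finset.mem_image] at he
  obtain ⟨x, hx, rfl⟩ := he
  rw [Finset.mem_Ico] at hx
  simp only [Finset.mem_union, Finset.mem_image, Finset.mem_Icc]
  left
  exact ⟨x, by omega, rfl⟩

theorem Wd_card (N : ℕ) : (Wd N).card ≤ 10 * N + 10 := by
  unfold Wd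
  refine (Finset.card_union_le _ _).trans ?_
  have h1 := Finset.card_union_le ((Finset.Icc (0 : ℤ) ((N : ℤ) - 1)).image (fun x => ((x, 0, false) : Edg)))
    ((Finset.Icc (0 : ℤ) ((N : ℤ) - 1)).image (fun x => ((x, -1, false) : Edg)))
  have h2 : ((Finset.Icc (-1 : ℤ) ((N : ℤ) - 1)).image (fun x => ((x, 0, true) : Edg))).card ≤ N + 1 := by
    refine Finset.card_image_le.trans ?_
    rw [Int.card_Icc]; omega
  have h3 : ((Finset.Icc (0 : ℤ) ((N : ℤ) - 1)).image (fun x => ((x, 0, false) : Edg))).card ≤ N := by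
    refine Finset.card_image_le.trans ?_
    rw [Int.card_Icc]; omega
  have h4 : ((Finset.Icc (0 : ℤ) ((N : ℤ) - 1)).image (fun x => ((x, -1, false) : Edg))).card ≤ N := by
    refine Finset.card_image_le.trans ?_
    rw [Int.card_Icc]; omega
  omega

theorem Wd_sub (N : ℕ) : Wd N ⊆ boxE (N + 1) := by
  intro e he
  unfold Wd at he
  simp only [Finset.mem_union, Finset.mem_image, Finset.mem_Icc] at he
  unfold boxE
  rcases he with ⟨x, hx, rfl⟩ | ⟨x, hx, rfl⟩ | ⟨x, hx, rfl⟩
  · rw [mem_RE_true]; push_cast; omega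
  · rw [mem_RE_false]; push_cast; omega
  · rw [mem_RE_false]; push_cast; omega

theorem reach_seg {N : ℕ} {F : Finset Edg} (h : Pth N ⊆ F) :
    ∀ k : ℕ, k < N → Reach (↑F) (0, 0) ((k : ℤ), 0) := by
  intro k
  induction k with
  | zero => intro _; exact Reach.refl _ _
  | succ k ih =>
    intro hk
    have h1 := ih (by omega)
    refine h1.trans (Adj.reach ⟨((k : ℤ), 0, true), ?_, Or.inl ⟨by simp, by simp⟩⟩)
    have h2 : (((k : ℤ), 0, true) : Edg) ∈ Pth N := by
      unfold Pth
      rw [Finset.mem_image]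
      exact ⟨k, by rw [Finset.mem_Ico]; omega, rfl⟩
    exact_mod_cast h h2

theorem reach_in {N : ℕ} (hN : 1 ≤ N) {F : Finset Edg} (h : F ∩ Wd N = Pth N) {v : Vtx}
    (hv : Reach (↑F) (0, 0) v) : v.2 = 0 ∧ 0 ≤ v.1 ∧ v.1 < N := by
  induction hv with
  | refl => exact ⟨rfl, le_rfl, by show (0 : ℤ) < N; omega⟩
  | @tail w w' _ hs ih =>
    obtain ⟨⟨a, b, c⟩, he, hcase⟩ := hs
    obtain ⟨w1, w2⟩ := w
    obtain ⟨v1, v2⟩ := w'
    simp only at ih
    have hW : ((a, b, c) : Edg) ∈ Wd N := by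
      unfold Wd
      simp only [Finset.mem_union, Finset.mem_image, Finset.mem_Icc]
      cases c
      · simp only [src_mk, tgt_false, Prod.mk.injEq] at hcase
        rcases hcase with ⟨h3, h4⟩ | ⟨h3, h4⟩
        · right; left
          refine ⟨a, by omega, ?_⟩
          have : b = 0 := by omega
          rw [this]
        · right; right
          refine ⟨a, by omega, ?_⟩
          have : b = -1 := by omega
          rw [this]
      · simp only [src_mk, tgt_true, Prod.mk.injEq] at hcase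
        rcases hcase with ⟨h3, h4⟩ | ⟨h3, h4⟩
        · left
          refine ⟨a, by omega, ?_⟩
          have : b = 0 := by omega
          rw [this]
        · left
          refine ⟨a, by omega, ?_⟩
          have : b = 0 := by omega
          rw [this]
    have hP : ((a, b, c) : Edg) ∈ Pth N := by
      rw [← h, Finset.mem_inter]
      exact ⟨by exact_mod_cast he, hW⟩
    unfold Pth at hP
    rw [Finset.mem_image] at hP
    obtain ⟨x, hx, hxe⟩ := hP
    rw [Finset.mem_Ico] at hx
    simp only [Prod.mk.injEq] at hxe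
    obtain ⟨rfl, rfl, rfl⟩ := hxe
    simp only [src_mk, tgt_true, Prod.mk.injEq] at hcase
    simp only
    omega

theorem Sz_eq {N : ℕ} (hN : 1 ≤ N) {F : Finset Edg} (h : F ∩ Wd N = Pth N) :
    Sz (N + 1) (0, 0) F = N := by
  classical
  unfold Sz
  have hPF : Pth N ⊆ F := by rw [← h]; exact Finset.inter_subset_left
  have h1 : (bx (N + 1)).filter (fun v => Reach (↑F) (0, 0) v) =
      (Finset.range N).image (fun k : ℕ => (((k : ℤ), 0) : Vtx)) := by
    ext ⟨a, b⟩
    simp only [Finset.mem_filter, Finset.mem_image, Finset.mem_range, Prod.mk.injEq]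
    constructor
    · rintro ⟨-, h2⟩
      have := reach_in hN h h2
      simp only at this
      exact ⟨a.toNat, by omega, by omega, by omega⟩
    · rintro ⟨k, hk, rfl, rfl⟩
      refine ⟨?_, reach_seg hPF k hk⟩
      unfold bx
      simp only [Finset.mem_product, Finset.mem_Icc]
      push_cast
      omega
  have h2 : ((bx (N + 1)).filter (fun v => Reach (↑F) (0, 0) v)).card = N := by
    rw [h1, Finset.card_image_of_injective, Finset.card_range]
    intro a b hab
    simpa using hab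
  convert h2

theorem t_SML (hINF : S_INF) : S_SML := by
  classical
  intro p N hp1 hp2 hN
  rw [hINF p N (N + 1) le_rfl]
  have hok : Ok (fun _ : Edg => (p : ℝ)) := okq p.2.1 p.2.2
  have h1 : Pr (fun _ => (p : ℝ)) (boxE (N + 1)) (fun F => F ∩ Wd N = Pth N) ≤
      Pr (fun _ => (p : ℝ)) (boxE (N + 1)) (fun F => Sz (N + 1) (0, 0) F = N) :=
    Pr_mono hok (fun F _ hF => Sz_eq hN hF)
  refine le_trans ?_ h1
  rw [Pr_local (Wd_sub N) (fun F _ => by rw [Finset.inter_assoc, Finset.inter_self])]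
  have h2 : (p : ℝ) ^ (Pth N).card * (1 - (p : ℝ)) ^ (Wd N \ Pth N).card ≤
      Pr (fun _ => (p : ℝ)) (Wd N) (fun F => F ∩ Wd N = Pth N) := by
    unfold Pr Ex
    have h3 : (p : ℝ) ^ (Pth N).card * (1 - (p : ℝ)) ^ (Wd N \ Pth N).card =
        (∏ e ∈ Pth N, (fun _ : Edg => (p : ℝ)) e) *
          (∏ e ∈ Wd N \ Pth N, (1 - (fun _ : Edg => (p : ℝ)) e)) *
          ind (Pth N ∩ Wd N = Pth N) := by
      rw [ind_of (Finset.inter_eq_left.mpr (Pth_sub N)), mul_one, Finset.prod_const,
        Finset.prod_const]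
    rw [h3]
    refine Finset.single_le_sum (f := fun F : Finset Edg =>
        (∏ e ∈ F, (fun _ : Edg => (p : ℝ)) e) *
          (∏ e ∈ Wd N \ F, (1 - (fun _ : Edg => (p : ℝ)) e)) * ind (F ∩ Wd N = Pth N)) ?_
        (Finset.mem_powerset.mpr (Pth_sub N))
    intro F _
    refine mul_nonneg (mul_nonneg ?_ ?_) (ind_nonneg _)
    · exact Finset.prod_nonneg (fun _ _ => p.2.1)
    · exact Finset.prod_nonneg (fun _ _ => by have := p.2.2; simp only; linarith)
  refine le_trans ?_ h2
  have h4 : (1 / 4 : ℝ) ^ (Pth N).card ≤ (p : ℝ) ^ (Pth N).card :=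
    pow_le_pow_left₀ (by norm_num) hp1 _
  have h5 : (1 / 4 : ℝ) ^ (Wd N \ Pth N).card ≤ (1 - (p : ℝ)) ^ (Wd N \ Pth N).card :=
    pow_le_pow_left₀ (by norm_num) (by linarith) _
  have h6 : (Pth N).card + (Wd N \ Pth N).card = (Wd N).card := by
    rw [add_comm]
    exact Finset.card_sdiff_add_card_eq_card (Pth_sub N)
  calc (1 / 4 : ℝ) ^ (10 * N + 10) ≤ (1 / 4 : ℝ) ^ (Wd N).card :=
        pow_le_pow_of_le_one (by norm_num) (by norm_num) (Wd_card N)
    _ = (1 / 4 : ℝ) ^ (Pth N).card * (1 / 4 : ℝ) ^ (Wd N \ Pth N).card := by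
        rw [← pow_add, h6]
    _ ≤ _ := mul_le_mul h4 h5 (by positivity) (by have := p.2.1; positivity)

end Pool.Agent.Q125.FE.Sml
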